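import Mathlib
import Pool.Agent.Q80.EW.Stm

/-!
# Project EW of helper80: job EXP (the truncated exponential as a Dirichlet polynomial)
-/

set_option autoImplicit false
set_option linter.unusedSectionVars false

namespace Pool.Agent.Q280.EW

open Finset Filter Topology MeasureTheory Pool.Agent.Q80.EW
open ArithmeticFunction (cardFactors)

theorem fs_summable {X : ℕ} {f : ArithmeticFunction ℂ} (hf : FS X f) (s : ℂ) :
    LSeriesSummable (fun n => f n) s := by
  refine summable_of_ne_finset_zero (s := range (X + 1)) fun n hn => ?_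
  have h1 : X < n := by
    rw [Finset.mem_range] at hn
    omega
  rw [LSeries.term_def, hf n h1]
  simp

/-- The real coefficients. -/
noncomputable def E (v : ℕ → ℝ) (n : ℕ) : ℝ :=
  n.factorization.prod fun p a => v p ^ a / (a.factorial : ℝ)

theorem ex_apply {v : ℕ → ℝ} {n : ℕ} (hn : n ≠ 0) : ex v n = (E v n : ℂ) := by
  change (if n = 0 then 0 else _) = _
  rw [if_neg hn]
  rfl

theorem E_div {v : ℕ → ℝ} {n p : ℕ} (hn : n ≠ 0) (hp : p.Prime) (hpn : p ∣ n) :
    v p * E v (n / p) = (n.factorization p : ℝ) * E v n := by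
  unfold E
  have h1 : (n / p).factorization = n.factorization - Finsupp.single p 1 := by
    rw [Nat.factorization_div hpn, hp.factorization]
  have hg : ∀ i : ℕ, v i ^ 0 / ((0 : ℕ).factorial : ℝ) = 1 := by
    intro i
    simp
  rw [← Finsupp.mul_prod_erase' (n / p).factorization p _ hg,
    ← Finsupp.mul_prod_erase' n.factorization p _ hg]
  have h2 : Finsupp.erase p (n / p).factorization = Finsupp.erase p n.factorization := by
    ext q
    by_cases h : q = p
    · subst h
      simp
    · rw [Finsupp.erase_ne h, Finsupp.erase_ne h, h1]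
      simp [Finsupp.single_eq_of_ne h]
  obtain ⟨a, ha⟩ : ∃ a, n.factorization p = a + 1 := by
    have h3 : 1 ≤ n.factorization p := (hp.dvd_iff_one_le_factorization hn).1 hpn
    exact ⟨n.factorization p - 1, by omega⟩
  have h4 : (n / p).factorization p = a := by
    rw [h1]
    simp [ha]
  rw [h2, h4, ha, Nat.factorial_succ, pow_succ]
  have h5 : ((a.factorial : ℕ) : ℝ) ≠ 0 := by exact_mod_cast a.factorial_ne_zero
  have h6 : ((a : ℝ) + 1) ≠ 0 := by positivity
  push_cast
  field_simp

theorem E_ne {v : ℕ → ℝ} {n p : ℕ} (hn : n ≠ 0) (hp : p.Prime) (hpn : p ∣ n) (h : E v n ≠ 0) :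
    v p ≠ 0 := by
  intro h0
  have h1 := E_div (v := v) hn hp hpn
  rw [h0, zero_mul] at h1
  have h3 : 1 ≤ n.factorization p := (hp.dvd_iff_one_le_factorization hn).1 hpn
  have h4 : (n.factorization p : ℝ) ≠ 0 := by
    have : (1 : ℝ) ≤ n.factorization p := by exact_mod_cast h3
    positivity
  exact (mul_ne_zero h4 h) h1.symm

theorem le_pow {Z n l : ℕ} (hZ : 1 ≤ Z) (hn : n ≠ 0) (h : ∀ p, p.Prime → p ∣ n → p < Z)
    (hl : cardFactors n ≤ l) : n ≤ Z ^ l := by
  rw [ArithmeticFunction.cardFactors_apply] at hl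
  calc n = n.primeFactorsList.prod := (Nat.prod_primeFactorsList hn).symm
    _ ≤ Z ^ n.primeFactorsList.length := by
        refine List.prod_le_pow_card _ _ fun p hp => ?_
        exact (h p (Nat.prime_of_mem_primeFactorsList hp) (Nat.dvd_of_mem_primeFactorsList hp)).le
    _ ≤ Z ^ l := Nat.pow_le_pow_right hZ hl

theorem tr_apply (l : ℕ) (f : ArithmeticFunction ℂ) (n : ℕ) :
    tr l f n = if cardFactors n ≤ l then f n else 0 := rfl

theorem pk_apply (l : ℕ) (f : ArithmeticFunction ℂ) (n : ℕ) :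
    pk l f n = if cardFactors n = l then f n else 0 := rfl

theorem fs_ex {Z l : ℕ} {v : ℕ → ℝ} (hZ : 1 ≤ Z) (hv : Wt Z v) {n : ℕ} (hn : Z ^ l < n)
    (hl : cardFactors n ≤ l) : ex v n = 0 := by
  have hn0 : n ≠ 0 := by
    rintro rfl
    exact absurd hn (Nat.not_lt_zero _)
  by_contra h
  rw [ex_apply hn0] at h
  have h1 : E v n ≠ 0 := fun h0 => h (by rw [h0]; simp)
  refine absurd (le_pow hZ hn0 (fun p hp hpn => ?_) hl) (not_le.2 hn)
  by_contra h2
  exact E_ne hn0 hp hpn h1 ((hv p).2 (not_lt.1 h2))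

/-- The weights on the primes. -/
noncomputable def vA (v : ℕ → ℝ) : ArithmeticFunction ℂ :=
  ⟨fun n => if n.Prime then (v n : ℂ) else 0, by simp [Nat.not_prime_zero]⟩

theorem vA_apply (v : ℕ → ℝ) (n : ℕ) : vA v n = if n.Prime then (v n : ℂ) else 0 := rfl

theorem fs_vA {Z : ℕ} {v : ℕ → ℝ} (hv : Wt Z v) : FS Z (vA v) := by
  intro n hn
  rw [vA_apply, (hv n).2 hn.le]
  simp

theorem dp_vA {Z : ℕ} {v : ℕ → ℝ} (hv : Wt Z v) (t : ℝ) : dp (vA v) t = PV Z v t := by
  unfold dp PV LSeries
  rw [tsum_eq_sum (s := Nat.primesBelow Z)]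
  · refine Finset.sum_congr rfl fun p hp => ?_
    have hp' := Nat.prime_of_mem_primesBelow hp
    rw [LSeries.term_of_ne_zero hp'.ne_zero, vA_apply, if_pos hp', Complex.cpow_neg,
      div_eq_mul_inv]
  · intro n hn
    rw [LSeries.term_def]
    split_ifs with h
    · rfl
    · rw [vA_apply]
      split_ifs with h1
      · have h2 : Z ≤ n := by
          by_contra h3
          exact hn (Nat.mem_primesBelow.2 ⟨not_le.1 h3, h1⟩)
        rw [(hv n).2 h2]
        simp
      · simp

theorem key (v : ℕ → ℝ) (k : ℕ) :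
    ((vA v * pk k (ex v) : ArithmeticFunction ℂ) : ℕ → ℂ) =
      ((k + 1 : ℂ)) • ((pk (k + 1) (ex v) : ArithmeticFunction ℂ) : ℕ → ℂ) := by
  funext n
  rw [Pi.smul_apply, smul_eq_mul]
  rcases eq_or_ne n 0 with rfl | hn
  · simp
  rw [ArithmeticFunction.mul_apply, Nat.sum_divisorsAntidiagonal (fun x y => vA v x * pk k (ex v) y)]
  rw [← Finset.sum_subset (s₁ := n.primeFactors) (fun p hp => Nat.mem_divisors.2
    ⟨Nat.dvd_of_mem_primeFactors hp, hn⟩)]
  · have hm : ∀ p ∈ n.primeFactors, n / p ≠ 0 := fun p hp => by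
      have h1 := Nat.dvd_of_mem_primeFactors hp
      have h2 := (Nat.prime_of_mem_primeFactors hp).pos
      exact (Nat.div_pos (Nat.le_of_dvd (Nat.pos_of_ne_zero hn) h1) h2).ne'
    have hΩ : ∀ p ∈ n.primeFactors, cardFactors n = cardFactors (n / p) + 1 := by
      intro p hp
      have h1 : n = p * (n / p) := (Nat.mul_div_cancel' (Nat.dvd_of_mem_primeFactors hp)).symm
      conv_lhs => rw [h1]
      have h2 := Nat.prime_of_mem_primeFactors hp
      rw [ArithmeticFunction.cardFactors_mul h2.ne_zero (hm p hp),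
        ArithmeticFunction.cardFactors_apply_prime h2, add_comm]
    rw [pk_apply]
    by_cases h : cardFactors n = k + 1
    · rw [if_pos h, ex_apply hn]
      have h1 : ∀ p ∈ n.primeFactors, vA v p * pk k (ex v) (n / p) =
          (((n.factorization p : ℝ) * E v n : ℝ) : ℂ) := by
        intro p hp
        have h2 := Nat.prime_of_mem_primeFactors hp
        have h3 := hΩ p hp
        rw [vA_apply, if_pos h2, pk_apply, if_pos (by omega), ex_apply (hm p hp),
          ← E_div hn h2 (Nat.dvd_of_mem_primeFactors hp)]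
        push_cast
        ring
      rw [Finset.sum_congr rfl h1, ← Complex.ofReal_sum, ← Finset.sum_mul]
      have h4 : ∑ p ∈ n.primeFactors, (n.factorization p : ℝ) = (k : ℝ) + 1 := by
        have h5 : cardFactors n = ∑ p ∈ n.primeFactors, n.factorization p := by
          rw [ArithmeticFunction.cardFactors_eq_sum_factorization]
          rfl
        rw [h] at h5
        have h6 := congrArg (fun x : ℕ => (x : ℝ)) h5
        push_cast at h6
        exact h6.symm
      rw [h4]
      push_cast
      ring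
    · rw [if_neg h, mul_zero]
      refine Finset.sum_eq_zero fun p hp => ?_
      have h3 := hΩ p hp
      rw [pk_apply, if_neg (by omega), mul_zero]
  · intro p hp hp2
    have h1 : ¬ p.Prime := fun h => hp2 (Nat.mem_primeFactors.2 ⟨h, (Nat.mem_divisors.1 hp).1, hn⟩)
    rw [vA_apply, if_neg h1, zero_mul]

theorem dp_pk {Z : ℕ} {v : ℕ → ℝ} (hZ : 1 ≤ Z) (hv : Wt Z v) (t : ℝ) (k : ℕ) :
    dp (pk k (ex v)) t = PV Z v t ^ k / (k.factorial : ℂ) := by
  have hfs : ∀ k, FS (Z ^ k) (pk k (ex v)) := by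
    intro k n hn
    rw [pk_apply]
    split_ifs with h
    · exact fs_ex hZ hv hn h.le
    · rfl
  induction k with
  | zero =>
    rw [pow_zero, Nat.factorial_zero, Nat.cast_one, div_one]
    unfold dp LSeries
    rw [tsum_eq_single 1]
    · rw [LSeries.term_of_ne_zero one_ne_zero, pk_apply, if_pos (by simp), ex_apply one_ne_zero]
      simp [E]
    · intro n hn
      rcases eq_or_ne n 0 with rfl | hn0
      · simp
      · rw [LSeries.term_of_ne_zero hn0, pk_apply, if_neg, zero_div]
        rw [ArithmeticFunction.cardFactors_eq_zero_iff_eq_zero_or_one]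
        tauto
  | succ k ih =>
    have h1 : dp (vA v * pk k (ex v)) t = dp (vA v) t * dp (pk k (ex v)) t :=
      ArithmeticFunction.LSeries_mul' (fs_summable (fs_vA hv) _) (fs_summable (hfs k) _)
    have h2 : dp (vA v * pk k (ex v)) t = ((k : ℂ) + 1) * dp (pk (k + 1) (ex v)) t := by
      unfold dp
      have h3 : (fun n => (vA v * pk k (ex v) : ArithmeticFunction ℂ) n) =
        ((k + 1 : ℂ)) • (fun n => (pk (k + 1) (ex v) : ArithmeticFunction ℂ) n) := key v k
      rw [h3, LSeries_smul]
    have h4 : ((k : ℂ) + 1) ≠ 0 := by exact_mod_cast Nat.succ_ne_zero k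
    rw [h2, ih, dp_vA hv] at h1
    have h5 : dp (pk (k + 1) (ex v)) t = (PV Z v t * (PV Z v t ^ k / (k.factorial : ℂ))) / ((k : ℂ) + 1) := by
      rw [← h1]
      field_simp
    rw [h5, Nat.factorial_succ, pow_succ]
    push_cast
    have h6 : ((k.factorial : ℕ) : ℂ) ≠ 0 := by exact_mod_cast k.factorial_ne_zero
    field_simp

/-- JOB EXP. -/
theorem t_EXP : J_EXP := by
  intro Z l v hZ hv
  have hfs : ∀ k, FS (Z ^ k) (pk k (ex v)) := by
    intro k n hn
    rw [pk_apply]
    split_ifs with h
    · exact fs_ex hZ hv hn h.le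
    · rfl
  refine ⟨?_, hfs l, ?_, fun t => ⟨?_, dp_pk hZ hv t l⟩⟩
  · intro n hn
    rw [tr_apply]
    split_ifs with h
    · exact fs_ex hZ hv hn h
    · rfl
  · intro n hn
    rw [tr_apply]
    split_ifs with h
    · change (if n ∈ Nat.smoothNumbers Z then (1 : ℂ) else 0) = 0
      rw [if_neg]
      intro hs
      have hn0 : n ≠ 0 := by
        rintro rfl
        exact absurd hn (Nat.not_lt_zero _)
      refine absurd (le_pow hZ hn0 (fun p hp hpn => ?_) h) (not_le.2 hn)
      exact Nat.mem_smoothNumbers'.1 hs p hp hpn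
    · rfl
  · have h1 : (fun n => (tr l (ex v) : ArithmeticFunction ℂ) n) =
        ∑ k ∈ range (l + 1), fun n => (pk k (ex v) : ArithmeticFunction ℂ) n := by
      funext n
      rw [Finset.sum_apply, tr_apply]
      simp only [pk_apply]
      rw [Finset.sum_ite_eq]
      simp only [Finset.mem_range, Nat.lt_succ_iff]
    unfold dp
    rw [h1, LSeries_sum fun k _ => fs_summable (hfs k) _]
    unfold eT
    refine Finset.sum_congr rfl fun k _ => ?_
    exact dp_pk hZ hv t k

end Pool.Agent.Q280.EW
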