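import Mathlib
import Pool.Agent.Q80.EW.Stm

/-!
# Project EW of helper80: job FR2 (the trivial bound for the rough part)
-/

set_option autoImplicit false
set_option linter.unusedSectionVars false

namespace Pool.Agent.Q280.EW.Fr2

open Finset Pool.Agent.Q80.EW

/-- The rough numbers up to `X`. -/
noncomputable def BB (Z X : ℕ) : Finset ℕ :=
  @Finset.filter ℕ (fun n => ∀ p : ℕ, p.Prime → p ∣ n → Z ≤ p) (Classical.decPred _)
    (Finset.Icc 1 X)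

theorem mem_BB {Z X n : ℕ} : n ∈ BB Z X ↔ n ≠ 0 ∧ n ≤ X ∧ ∀ p : ℕ, p.Prime → p ∣ n → Z ≤ p := by
  classical
  unfold BB
  rw [Finset.mem_filter, Finset.mem_Icc]
  constructor
  · rintro ⟨⟨h1, h2⟩, h3⟩
    exact ⟨by omega, h2, h3⟩
  · rintro ⟨h1, h2, h3⟩
    exact ⟨⟨by omega, h2⟩, h3⟩

theorem BB_dvd {Z X n m : ℕ} (hn : n ∈ BB Z X) (hm : m ∣ n) : m ∈ BB Z X := by
  rw [mem_BB] at hn ⊢
  obtain ⟨h1, h2, h3⟩ := hn
  refine ⟨fun h => h1 (by rw [h] at hm; exact Nat.eq_zero_of_zero_dvd hm), ?_,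
    fun p hp hpm => h3 p hp (hpm.trans hm)⟩
  exact (Nat.le_of_dvd (Nat.pos_of_ne_zero h1) hm).trans h2

open scoped Classical in
theorem ro_apply (Z X n : ℕ) : ro Z X n = if n ∈ BB Z X then 1 else 0 := by
  change (if n ≠ 0 ∧ n ≤ X ∧ ∀ p : ℕ, p.Prime → p ∣ n → Z ≤ p then (1 : ℂ) else 0) = _
  by_cases h : n ∈ BB Z X
  · rw [if_pos h, if_pos (mem_BB.1 h)]
  · rw [if_neg h, if_neg fun h' => h (mem_BB.2 h')]

theorem sh_norm (Z X : ℕ) (h : ℝ) (n : ℕ) : ‖sh h (ro Z X) n‖ ≤ ‖ro Z X n‖ := by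
  change ‖ro Z X n * (n : ℂ) ^ (-((h : ℂ) * Complex.I))‖ ≤ _
  rw [norm_mul]
  rcases Nat.eq_zero_or_pos n with rfl | hn
  · have : ro Z X 0 = 0 := (ro Z X).map_zero
    rw [this, norm_zero, zero_mul]
  · rw [Complex.norm_natCast_cpow_of_pos hn]
    simp

theorem nm_ro (Z X : ℕ) : nm (ro Z X) = ∑ b ∈ BB Z X, 1 / (b : ℝ) := by
  classical
  unfold nm
  rw [tsum_eq_sum (s := BB Z X)]
  · refine Finset.sum_congr rfl fun b hb => ?_
    rw [ro_apply, if_pos hb, norm_one, one_pow]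
  · intro n hn
    rw [ro_apply, if_neg hn]
    simp

/-- The number of the factorizations. -/
noncomputable def cc (Z X n : ℕ) : ℝ :=
  ∑ p ∈ BB Z X ×ˢ BB Z X, if p.1 * p.2 = n then 1 else 0

theorem conv_le (Z X : ℕ) (h : ℝ) (n : ℕ) (_ : n ≠ 0) :
    ‖(ro Z X * sh h (ro Z X) : ArithmeticFunction ℂ) n‖ ≤ cc Z X n := by
  classical
  rw [ArithmeticFunction.mul_apply]
  refine (norm_sum_le _ _).trans ?_
  have h1 : ∀ x ∈ n.divisorsAntidiagonal, ‖ro Z X x.1 * sh h (ro Z X) x.2‖ ≤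
      if x ∈ BB Z X ×ˢ BB Z X then 1 else 0 := by
    intro x _
    rw [norm_mul]
    refine (mul_le_mul_of_nonneg_left (sh_norm Z X h x.2) (norm_nonneg _)).trans ?_
    rw [ro_apply, ro_apply]
    by_cases h2 : x.1 ∈ BB Z X <;> by_cases h3 : x.2 ∈ BB Z X <;>
      simp [h2, h3, Finset.mem_product]
  refine (Finset.sum_le_sum h1).trans ?_
  unfold cc
  rw [← Finset.sum_filter, ← Finset.sum_filter]
  refine Finset.sum_le_sum_of_subset_of_nonneg (fun x hx => ?_) fun _ _ _ => zero_le_one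
  rw [Finset.mem_filter, Nat.mem_divisorsAntidiagonal] at hx
  rw [Finset.mem_filter]
  exact ⟨hx.2, hx.1.1⟩

theorem cc_zero {Z X n : ℕ} (h : n = 0 ∨ X * X < n) : cc Z X n = 0 := by
  unfold cc
  refine Finset.sum_eq_zero fun p hp => ?_
  rw [Finset.mem_product, mem_BB, mem_BB] at hp
  obtain ⟨⟨h1, h2, -⟩, h3, h4, -⟩ := hp
  rw [if_neg]
  intro h5
  rcases h with h | h
  · rw [h] at h5
    rcases Nat.mul_eq_zero.1 h5 with h6 | h6
    · exact h1 h6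
    · exact h3 h6
  · have := Nat.mul_le_mul h2 h4
    omega

/-- The map of the solutions of `x y = z w` to the quadruples. -/
noncomputable def qd (p : (ℕ × ℕ) × (ℕ × ℕ)) : (ℕ × ℕ) × (ℕ × ℕ) :=
  ((Nat.gcd p.1.1 p.2.1, p.1.1 / Nat.gcd p.1.1 p.2.1),
    (p.2.1 / Nat.gcd p.1.1 p.2.1, p.1.2 / (p.2.1 / Nat.gcd p.1.1 p.2.1)))

theorem qd_spec {x y z w : ℕ} (hx : x ≠ 0) (hz : z ≠ 0) (h : x * y = z * w) :
    x = Nat.gcd x z * (x / Nat.gcd x z) ∧ z = Nat.gcd x z * (z / Nat.gcd x z) ∧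
      y = (z / Nat.gcd x z) * (y / (z / Nat.gcd x z)) ∧
      w = (x / Nat.gcd x z) * (y / (z / Nat.gcd x z)) := by
  have hg : 0 < Nat.gcd x z := Nat.gcd_pos_of_pos_left _ (Nat.pos_of_ne_zero hx)
  have h1 : x = Nat.gcd x z * (x / Nat.gcd x z) := (Nat.mul_div_cancel' (Nat.gcd_dvd_left x z)).symm
  have h2 : z = Nat.gcd x z * (z / Nat.gcd x z) := (Nat.mul_div_cancel' (Nat.gcd_dvd_right x z)).symm
  have hc : Nat.Coprime (x / Nat.gcd x z) (z / Nat.gcd x z) := Nat.coprime_div_gcd_div_gcd hg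
  obtain ⟨g, hgd⟩ : ∃ g, g = Nat.gcd x z := ⟨_, rfl⟩
  obtain ⟨r, hr⟩ : ∃ r, r = x / Nat.gcd x z := ⟨_, rfl⟩
  obtain ⟨s, hs⟩ : ∃ s, s = z / Nat.gcd x z := ⟨_, rfl⟩
  rw [← hgd] at hg
  rw [← hr, ← hs] at hc
  rw [← hr, ← hs, ← hgd]
  rw [← hr, ← hgd] at h1
  rw [← hs, ← hgd] at h2
  have h3 : r * y = s * w := by
    have h4 : g * (r * y) = g * (s * w) := by
      rw [← mul_assoc, ← mul_assoc, ← h1, ← h2, h]
    exact Nat.eq_of_mul_eq_mul_left hg h4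
  have h5 : s ∣ y := hc.symm.dvd_of_dvd_mul_left ⟨w, h3⟩
  have hs0 : 0 < s := by
    rcases Nat.eq_zero_or_pos s with h6 | h6
    · rw [h6, mul_zero] at h2
      exact absurd h2 hz
    · exact h6
  have h6 : y = s * (y / s) := (Nat.mul_div_cancel' h5).symm
  refine ⟨h1, h2, h6, ?_⟩
  have h7 : s * w = s * (r * (y / s)) := by
    rw [← h3]
    conv_lhs => rw [h6]
    ring
  exact Nat.eq_of_mul_eq_mul_left hs0 h7

/-- JOB FR2. -/
theorem t_FR2 : J_FR2 := by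
  classical
  intro Z X h
  have h1 : nm (ro Z X * sh h (ro Z X)) ≤ ∑ n ∈ Finset.Icc 1 (X * X), cc Z X n ^ 2 / (n : ℝ) := by
    unfold nm
    rw [tsum_eq_sum (s := Finset.Icc 1 (X * X))]
    · refine Finset.sum_le_sum fun n hn => ?_
      have hn0 : n ≠ 0 := by
        have := (Finset.mem_Icc.1 hn).1
        omega
      have := conv_le Z X h n hn0
      gcongr
    · intro n hn
      rcases eq_or_ne n 0 with rfl | hn0
      · simp
      have h2 : X * X < n := by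
        rw [Finset.mem_Icc] at hn
        omega
      have h3 := conv_le Z X h n hn0
      rw [cc_zero (Or.inr h2)] at h3
      have h4 : ‖(ro Z X * sh h (ro Z X) : ArithmeticFunction ℂ) n‖ = 0 :=
        le_antisymm h3 (norm_nonneg _)
      rw [h4]
      simp
  have h2 : ∑ n ∈ Finset.Icc 1 (X * X), cc Z X n ^ 2 / (n : ℝ) =
      ∑ p ∈ ((BB Z X ×ˢ BB Z X) ×ˢ (BB Z X ×ˢ BB Z X)).filter
        (fun p => p.1.1 * p.1.2 = p.2.1 * p.2.2), 1 / ((p.1.1 : ℝ) * p.1.2) := by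
    rw [Finset.sum_filter, Finset.sum_product]
    have h3 : ∀ n ∈ Finset.Icc 1 (X * X), cc Z X n ^ 2 / (n : ℝ) =
        ∑ p ∈ BB Z X ×ˢ BB Z X, ∑ q ∈ BB Z X ×ˢ BB Z X,
          if p.1 * p.2 = n then (if p.1 * p.2 = q.1 * q.2 then 1 / ((p.1 : ℝ) * p.2) else 0) else 0 := by
      intro n _
      unfold cc
      rw [sq, Finset.sum_mul_sum, Finset.sum_div]
      refine Finset.sum_congr rfl fun p _ => ?_
      rw [Finset.sum_div]
      refine Finset.sum_congr rfl fun q _ => ?_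
      by_cases h4 : p.1 * p.2 = n
      · subst h4
        by_cases h5 : p.1 * p.2 = q.1 * q.2
        · rw [if_pos rfl, if_pos rfl, if_pos h5, if_pos h5.symm]
          push_cast
          ring
        · rw [if_pos rfl, if_pos rfl, if_neg h5, if_neg (Ne.symm h5)]
          simp
      · rw [if_neg h4, if_neg h4]
        simp
    rw [Finset.sum_congr rfl h3, Finset.sum_comm]
    refine Finset.sum_congr rfl fun p hp => ?_
    rw [Finset.sum_comm]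
    refine Finset.sum_congr rfl fun q _ => ?_
    rw [Finset.sum_ite_eq, if_pos]
    rw [Finset.mem_product, mem_BB, mem_BB] at hp
    obtain ⟨⟨a1, a2, -⟩, a3, a4, -⟩ := hp
    rw [Finset.mem_Icc]
    exact ⟨Nat.mul_pos (Nat.pos_of_ne_zero a1) (Nat.pos_of_ne_zero a3), Nat.mul_le_mul a2 a4⟩
  have h3 : nm (ro Z X) ^ 4 = ∑ p ∈ (BB Z X ×ˢ BB Z X) ×ˢ (BB Z X ×ˢ BB Z X),
      1 / (((p.1.1 : ℝ) * p.1.2) * (p.2.1 * p.2.2)) := by
    rw [nm_ro, Finset.sum_product]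
    have h4 : (∑ b ∈ BB Z X, 1 / (b : ℝ)) ^ 4 = ((∑ b ∈ BB Z X, 1 / (b : ℝ)) *
        (∑ b ∈ BB Z X, 1 / (b : ℝ))) * ((∑ b ∈ BB Z X, 1 / (b : ℝ)) *
        (∑ b ∈ BB Z X, 1 / (b : ℝ))) := by ring
    rw [h4, Finset.sum_mul_sum, ← Finset.sum_product', Finset.sum_mul_sum]
    refine Finset.sum_congr rfl fun p _ => Finset.sum_congr rfl fun q _ => ?_
    rw [one_div_mul_one_div, one_div_mul_one_div, one_div_mul_one_div]
  rw [h3]
  refine h1.trans (h2.le.trans ?_)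
  have key : ∀ p ∈ ((BB Z X ×ˢ BB Z X) ×ˢ (BB Z X ×ˢ BB Z X)).filter
      (fun p => p.1.1 * p.1.2 = p.2.1 * p.2.2),
      qd p ∈ (BB Z X ×ˢ BB Z X) ×ˢ (BB Z X ×ˢ BB Z X) ∧
      p.1.1 = (qd p).1.1 * (qd p).1.2 ∧ p.2.1 = (qd p).1.1 * (qd p).2.1 ∧
      p.1.2 = (qd p).2.1 * (qd p).2.2 ∧ p.2.2 = (qd p).1.2 * (qd p).2.2 := by
    rintro ⟨⟨x, y⟩, ⟨z, w⟩⟩ hp
    simp only [Finset.mem_filter, Finset.mem_product] at hp
    obtain ⟨⟨⟨hx, hy⟩, hz, hw⟩, hp⟩ := hp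
    obtain ⟨e1, e2, e3, e4⟩ := qd_spec (mem_BB.1 hx).1 (mem_BB.1 hz).1 hp
    refine ⟨?_, e1, e2, e3, e4⟩
    simp only [Finset.mem_product]
    exact ⟨⟨BB_dvd hx (Nat.gcd_dvd_left _ _), BB_dvd hx ⟨Nat.gcd x z, e1.trans (mul_comm _ _)⟩⟩,
      BB_dvd hz ⟨Nat.gcd x z, e2.trans (mul_comm _ _)⟩,
      BB_dvd hy ⟨z / Nat.gcd x z, e3.trans (mul_comm _ _)⟩⟩
  have hinj : Set.InjOn qd (((BB Z X ×ˢ BB Z X) ×ˢ (BB Z X ×ˢ BB Z X)).filter
      (fun p => p.1.1 * p.1.2 = p.2.1 * p.2.2) : Finset ((ℕ × ℕ) × (ℕ × ℕ))) := by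
    intro p hp q hq hpq
    obtain ⟨-, a1, a2, a3, a4⟩ := key p (Finset.mem_coe.1 hp)
    obtain ⟨-, b1, b2, b3, b4⟩ := key q (Finset.mem_coe.1 hq)
    rw [hpq, ← b1] at a1
    rw [hpq, ← b2] at a2
    rw [hpq, ← b3] at a3
    rw [hpq, ← b4] at a4
    exact Prod.ext (Prod.ext a1 a3) (Prod.ext a2 a4)
  have h5 := Finset.sum_image (g := qd) (f := fun p : (ℕ × ℕ) × (ℕ × ℕ) =>
    1 / (((p.1.1 : ℝ) * p.1.2) * (p.2.1 * p.2.2))) hinj
  refine le_trans (le_of_eq ?_) (h5.symm.le.trans ?_)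
  · refine Finset.sum_congr rfl fun p hp => ?_
    obtain ⟨-, a1, a2, a3, a4⟩ := key p hp
    conv_lhs => rw [a1, a3]
    push_cast
    rfl
  · refine Finset.sum_le_sum_of_subset_of_nonneg (fun x hx => ?_) fun _ _ _ => by positivity
    obtain ⟨p, hp, rfl⟩ := Finset.mem_image.1 hx
    exact (key p hp).1

end Pool.Agent.Q280.EW.Fr2
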