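import Mathlib
import Pool.Agent.H262R4.TM.TM2
import Pool.Agent.H262R4.TM.V2
import Pool.Agent.H262R4.TM.TW

/-!
# Project EW of helper80: job HLW, part 1 (the mean square of zeta with the gamma weight)
-/

set_option autoImplicit false
set_option linter.unusedSectionVars false

namespace Pool.Agent.Q280.EW

open Finset Filter Topology MeasureTheory Pool.Agent.H262R4.TM Pool.Agent.H262R4.TM.TTW
open Pool.Agent.H306R2.SM (om cl ef Yf ee)
open Pool.Agent.H442R2.KF (tau)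

theorem S2_eq (k : ℕ) {Y : ℝ} (hY : 0 < Y) :
    S2 k 1 1 Y = (((k.factorial : ℝ) * Y ^ k * V2 k Y : ℝ) : ℂ) := by
  unfold S2
  have h1 : ∀ n : ℕ, (((tau n * ((n : ℝ) * (1 : ℕ) / (1 : ℕ)) ^ k *
      Real.exp (-((n : ℝ) * (1 : ℕ) / (1 : ℕ) / Y)) : ℝ) : ℂ) * ee 1 (-((n : ℤ) * (1 : ℕ)))) =
      ((Y ^ k * (tau n * ((n : ℝ) / Y) ^ k * Real.exp (-((n : ℝ) / Y))) : ℝ) : ℂ) := by
    intro n
    have e1 : ee 1 (-((n : ℤ) * (1 : ℕ))) = 1 := by
      unfold ee
      rw [Complex.exp_eq_one_iff]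
      refine ⟨-(n : ℤ), ?_⟩
      push_cast
      ring
    rw [e1, mul_one]
    congr 1
    simp only [Nat.cast_one, mul_one, div_one]
    rw [div_pow]
    field_simp
  rw [tsum_congr h1, ← Complex.ofReal_tsum, tsum_mul_left]
  congr 1
  unfold V2
  have hk : (0:ℝ) < k.factorial := by exact_mod_cast Nat.factorial_pos k
  field_simp

theorem harm (k : ℕ) (hk : 1 ≤ k) : |Ck k - Real.log k| ≤ 2 := by
  unfold Ck
  have h1 := log_add_one_le_harmonic k
  have h2 := harmonic_le_one_add_log k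
  have h3 := Real.eulerMascheroniConstant_lt_two_thirds
  have h4 := Real.one_half_lt_eulerMascheroniConstant
  have hk0 : (0 : ℝ) < k := by exact_mod_cast hk
  have h5 : Real.log k ≤ Real.log (k + 1 : ℕ) := by
    apply Real.log_le_log hk0
    push_cast
    linarith
  rw [abs_le]
  constructor <;> linarith

/-- The mean square with the gamma weight. -/
theorem ims_asymp : ∃ C : ℝ, 0 < C ∧ ∀ᶠ X : ℝ in atTop, ∀ k : ℕ, Real.log X ^ 2 ≤ k →
    (k : ℝ) ≤ 4 * Real.log X ^ 2 → |Ims k (k / X) - Real.log X| ≤ C := by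
  obtain ⟨C, A, hC, hV⟩ := t_V2
  have hlog0 : 0 ≤ Real.log (2 * Real.pi) :=
    Real.log_nonneg (x := 2 * Real.pi) (by have := Real.pi_gt_three; linarith)
  refine ⟨4 + Real.log (2 * Real.pi), by linarith, ?_⟩
  filter_upwards [t_TW t_TM2 t_V2, eventually_gt_atTop (Real.exp 1),
    log_pow_le (C * 4 ^ A) (1 / 8) (by norm_num) (2 * A),
    log_pow_le (8 * Real.pi) (1 / 2) (by norm_num) 2] with T hM hTe hB hY k hk1 hk2
  have hT1 : 1 < T := by
    have := Real.add_one_le_exp 1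
    linarith
  have hT0 : 0 < T := by linarith
  have hL1 : 1 ≤ Real.log T := by
    rw [Real.le_log_iff_exp_le hT0]
    exact hTe.le
  have hk1' : (1 : ℝ) ≤ k := le_trans (by nlinarith) hk1
  have hkn : 1 ≤ k := by exact_mod_cast hk1'
  have hπ := Real.pi_pos
  have hYpos : 0 < Yf k T := by unfold Yf; positivity
  have hY2 : T ^ (1 / 2 : ℝ) ≤ Yf k T := by
    unfold Yf
    rw [le_div_iff₀ (by positivity)]
    calc T ^ (1 / 2 : ℝ) * (2 * Real.pi * k) ≤ T ^ (1 / 2 : ℝ) * (2 * Real.pi * (4 * Real.log T ^ 2)) := by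
          gcongr
      _ = T ^ (1 / 2 : ℝ) * (8 * Real.pi * Real.log T ^ 2) := by ring
      _ ≤ T ^ (1 / 2 : ℝ) * T ^ (1 / 2 : ℝ) := by gcongr
      _ = T := by rw [← Real.rpow_add hT0]; norm_num
  have hY1 : 1 ≤ Yf k T := le_trans (Real.one_le_rpow hT1.le (by norm_num)) hY2
  have hfac : (0:ℝ) < k.factorial := by exact_mod_cast Nat.factorial_pos k
  have m1 := hM k ⟨hk1, hk2⟩ 1 1 le_rfl le_rfl (by exact_mod_cast hT1.le) (by exact_mod_cast hT1.le)
  rw [Mt_one, S2_eq k hYpos] at m1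
  have e1 : (Ims k (k / T) : ℂ) - (Real.sqrt (((1 : ℕ) : ℝ) / ((1 : ℕ) : ℝ)) : ℂ) *
      ((((k.factorial : ℝ) * Yf k T ^ k * V2 k (Yf k T) : ℝ) : ℂ) /
        (((k.factorial : ℝ) * Yf k T ^ (k + 1) : ℝ) : ℂ)) =
      ((Ims k (k / T) - V2 k (Yf k T) / Yf k T : ℝ) : ℂ) := by
    simp only [Nat.cast_one, div_one, Real.sqrt_one, Complex.ofReal_one, one_mul]
    rw [← Complex.ofReal_div, ← Complex.ofReal_sub]
    congr 2
    rw [pow_succ]
    field_simp
  rw [e1, Complex.norm_real, Real.norm_eq_abs] at m1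
  have m2 : |Ims k (k / T) - V2 k (Yf k T) / Yf k T| ≤ 1 :=
    m1.trans (Real.rpow_le_one_of_one_le_of_nonpos hT1.le (by norm_num))
  have m3 : |V2 k (Yf k T) / Yf k T - (Real.log (Yf k T) + Ck k)| ≤ 1 := by
    have e2 : V2 k (Yf k T) / Yf k T - (Real.log (Yf k T) + Ck k) =
        (V2 k (Yf k T) - Yf k T * (Real.log (Yf k T) + Ck k)) / Yf k T := by
      field_simp
    rw [e2, abs_div, abs_of_pos hYpos, div_le_one hYpos]
    refine (hV k hkn _ hY1).trans ?_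
    have e3 : C * (k : ℝ) ^ A ≤ Yf k T ^ (1 / 4 : ℝ) := by
      calc C * (k : ℝ) ^ A ≤ C * (4 * Real.log T ^ 2) ^ A := by gcongr
        _ = C * 4 ^ A * Real.log T ^ (2 * A) := by rw [mul_pow, ← pow_mul]; ring
        _ ≤ T ^ (1 / 8 : ℝ) := hB
        _ = (T ^ (1 / 2 : ℝ)) ^ (1 / 4 : ℝ) := by rw [← Real.rpow_mul hT0.le]; norm_num
        _ ≤ Yf k T ^ (1 / 4 : ℝ) := by gcongr
    calc C * (k : ℝ) ^ A * Yf k T ^ (3 / 4 : ℝ) ≤ Yf k T ^ (1 / 4 : ℝ) * Yf k T ^ (3 / 4 : ℝ) := by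
          gcongr
      _ = Yf k T := by rw [← Real.rpow_add hYpos]; norm_num
  have m4 : |Real.log (Yf k T) + Ck k - Real.log T| ≤ 2 + Real.log (2 * Real.pi) := by
    have e3 : Real.log (Yf k T) = Real.log T - Real.log (2 * Real.pi) - Real.log k := by
      unfold Yf
      rw [Real.log_div hT0.ne' (by positivity), Real.log_mul (by positivity) (by positivity)]
      ring
    have e4 := harm k hkn
    rw [e3]
    rw [abs_le] at e4 ⊢
    constructor <;> linarith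
  rw [abs_le] at m2 m3 m4 ⊢
  constructor <;> linarith

/-- Stirling: the weight at its centre. -/
theorem weight_low (k : ℕ) (hk : 1 ≤ k) :
    Real.sqrt k / Real.exp 1 ≤ (k : ℝ) ^ (k + 1) * Real.exp (-(k : ℝ)) / (k.factorial : ℝ) := by
  obtain ⟨n, rfl⟩ : ∃ n, k = n + 1 := ⟨k - 1, by omega⟩
  have h1 := Stirling.stirlingSeq'_antitone (Nat.zero_le n)
  simp only [Function.comp_apply, Nat.succ_eq_add_one, zero_add] at h1
  rw [Stirling.stirlingSeq_one] at h1
  unfold Stirling.stirlingSeq at h1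
  have hk0 : (0 : ℝ) < ((n + 1 : ℕ) : ℝ) := by positivity
  have hf : (0 : ℝ) < (((n + 1 : ℕ).factorial : ℕ) : ℝ) := by exact_mod_cast Nat.factorial_pos _
  set K : ℝ := ((n + 1 : ℕ) : ℝ) with hK
  have h2 : (((n + 1 : ℕ).factorial : ℕ) : ℝ) ≤ Real.exp 1 * Real.sqrt K * (K / Real.exp 1) ^ (n + 1) := by
    rw [div_le_iff₀ (by positivity)] at h1
    refine h1.trans (le_of_eq ?_)
    rw [Real.sqrt_mul (by norm_num : (0:ℝ) ≤ 2)]
    have h3 : Real.sqrt 2 ≠ 0 := by positivity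
    field_simp
  rw [div_le_div_iff₀ (Real.exp_pos 1) hf]
  calc Real.sqrt K * (((n + 1 : ℕ).factorial : ℕ) : ℝ)
      ≤ Real.sqrt K * (Real.exp 1 * Real.sqrt K * (K / Real.exp 1) ^ (n + 1)) := by gcongr
    _ = (Real.sqrt K * Real.sqrt K) * K ^ (n + 1) * Real.exp 1 * (Real.exp 1 ^ (n + 1))⁻¹ := by
        rw [div_pow]
        field_simp
    _ = K ^ (n + 1 + 1) * Real.exp (-K) * Real.exp 1 := by
        rw [Real.mul_self_sqrt hk0.le, Real.exp_neg, ← Real.exp_nat_mul, hK]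
        rw [pow_succ _ (n + 1)]
        push_cast
        rw [mul_one]
        ring

end Pool.Agent.Q280.EW
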