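import Mathlib
import Pool.Agent.Q280.EW.Hlw1

/-!
# Project EW of helper80: job HLW, part 2 (upper bounds in short intervals)
-/

set_option autoImplicit false
set_option linter.unusedSectionVars false

namespace Pool.Agent.Q280.EW

open Finset Filter Topology MeasureTheory Pool.Agent.H262R4.TM Pool.Agent.H262R4.TM.TTW
open Pool.Agent.H306R2.SM (om cl ef Yf ee)

/-- The square of zeta on the critical line. -/
noncomputable def ZZ (t : ℝ) : ℝ := ‖riemannZeta (cl t)‖ ^ 2

theorem ZZ_cont : Continuous ZZ := zeta_cont.norm.pow 2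

theorem ZZ_nonneg (t : ℝ) : 0 ≤ ZZ t := sq_nonneg _

theorem ZZ_int (a b : ℝ) : IntervalIntegrable ZZ volume a b := ZZ_cont.intervalIntegrable a b

/-- The weight in the window. -/
theorem om_low {k : ℕ} (hk : 1 ≤ k) {X t : ℝ} (hX : 0 < X) (h1 : X ≤ t)
    (h2 : t ≤ X + X / Real.sqrt k) :
    Real.sqrt k / (Real.exp 2 * X) ≤ om k (k / X) t := by
  have hk0 : (0 : ℝ) < k := by exact_mod_cast hk
  have hsk : 0 < Real.sqrt k := Real.sqrt_pos.2 hk0
  have ht : 0 < t := lt_of_lt_of_le hX h1
  set y := t / X with hy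
  have hty : t = X * y := by rw [hy]; field_simp
  have hy1 : 1 ≤ y := by rw [hy, le_div_iff₀ hX]; linarith
  have hy2 : y ≤ 1 + 1 / Real.sqrt k := by
    rw [hy, div_le_iff₀ hX]
    calc t ≤ X + X / Real.sqrt k := h2
      _ = (1 + 1 / Real.sqrt k) * X := by ring
  have hy0 : 0 < y := by linarith
  have h3 : Real.exp (-(k : ℝ)) * Real.exp (-1) ≤ y ^ k * Real.exp (-(k * y)) := by
    have h4 : y ^ k = Real.exp (k * Real.log y) := by
      rw [Real.exp_nat_mul, Real.exp_log hy0]
    rw [h4, ← Real.exp_add, ← Real.exp_add]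
    apply Real.exp_le_exp.2
    have h5 := Real.one_sub_inv_le_log_of_pos hy0
    have h6 : (k : ℝ) * (y - 1) ^ 2 ≤ 1 := by
      have h7 : (y - 1) ^ 2 ≤ (1 / Real.sqrt k) ^ 2 := by
        apply pow_le_pow_left₀ (by linarith)
        linarith
      calc (k : ℝ) * (y - 1) ^ 2 ≤ k * (1 / Real.sqrt k) ^ 2 := by gcongr
        _ = 1 := by
          rw [div_pow, Real.sq_sqrt hk0.le]
          field_simp
    have h8 : y - 1 - Real.log y ≤ (y - 1) ^ 2 := by
      have h9 : y - 1 - (1 - y⁻¹) ≤ (y - 1) ^ 2 := by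
        have h10 : y - 1 - (1 - y⁻¹) = (y - 1) ^ 2 / y := by
          field_simp
        rw [h10]
        exact div_le_self (sq_nonneg _) hy1
      linarith
    nlinarith
  have h4 := weight_low k hk
  have h5 : om k (k / X) t = (1 / X) * ((k : ℝ) ^ (k + 1) * (y ^ k * Real.exp (-(k * y))) /
      (k.factorial : ℝ)) := by
    unfold om
    rw [hty]
    have h6 : (k : ℝ) / X * (X * y) = k * y := by field_simp
    rw [h6, mul_pow, div_pow, pow_succ X k]
    field_simp
  rw [h5]
  have hf : (0 : ℝ) < k.factorial := by exact_mod_cast Nat.factorial_pos k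
  calc Real.sqrt k / (Real.exp 2 * X) = (1 / X) * (Real.sqrt k / Real.exp 1 * Real.exp (-1)) := by
        rw [show (2 : ℝ) = 1 + 1 by norm_num, Real.exp_add, Real.exp_neg]
        field_simp
    _ ≤ (1 / X) * (((k : ℝ) ^ (k + 1) * Real.exp (-(k : ℝ)) / (k.factorial : ℝ)) * Real.exp (-1)) := by
        gcongr
    _ = (1 / X) * ((k : ℝ) ^ (k + 1) * (Real.exp (-(k : ℝ)) * Real.exp (-1)) / (k.factorial : ℝ)) := by
        ring
    _ ≤ _ := by gcongr

/-- Short intervals. -/
theorem short : ∃ C : ℝ, 0 < C ∧ ∀ᶠ X : ℝ in atTop, ∀ b : ℝ, X ≤ b → b ≤ X + X / (2 * Real.log X) →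
    ∫ t in X..b, ZZ t ≤ C * X := by
  obtain ⟨C, hC, h⟩ := ims_asymp
  refine ⟨Real.exp 2 * (1 + C), by positivity, ?_⟩
  filter_upwards [h, eventually_gt_atTop (Real.exp 1)] with X hX hXe b hb1 hb2
  have hX1 : 1 < X := by
    have := Real.add_one_le_exp 1
    linarith
  have hX0 : 0 < X := by linarith
  have hL1 : 1 ≤ Real.log X := by
    rw [Real.le_log_iff_exp_le hX0]
    exact hXe.le
  set k := ⌈Real.log X ^ 2⌉₊ with hk
  have hk1 : Real.log X ^ 2 ≤ k := Nat.le_ceil _
  have hk2 : (k : ℝ) < Real.log X ^ 2 + 1 := Nat.ceil_lt_add_one (by positivity)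
  have hk3 : (k : ℝ) ≤ 4 * Real.log X ^ 2 := by nlinarith
  have hkn : 1 ≤ k := by
    have : (1 : ℝ) ≤ k := le_trans (by nlinarith) hk1
    exact_mod_cast this
  have hk0 : (0 : ℝ) < k := by exact_mod_cast hkn
  have hsk : 0 < Real.sqrt k := Real.sqrt_pos.2 hk0
  have hs1 : Real.log X ≤ Real.sqrt k := Real.le_sqrt_of_sq_le hk1
  have hs2 : Real.sqrt k ≤ 2 * Real.log X := by
    rw [Real.sqrt_le_left (by positivity)]
    nlinarith
  have h1 := hX k hk1 hk3
  have hb3 : b ≤ X + X / Real.sqrt k := by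
    refine hb2.trans ?_
    gcongr
  have h2 : Real.sqrt k / (Real.exp 2 * X) * ∫ t in X..b, ZZ t ≤ Ims k (k / X) := by
    rw [intervalIntegral.integral_of_le hb1, ← integral_const_mul]
    unfold Ims
    calc ∫ t in Set.Ioc X b, Real.sqrt k / (Real.exp 2 * X) * ZZ t
        ≤ ∫ t in Set.Ioc X b, om k (k / X) t * ‖riemannZeta (cl t)‖ ^ 2 := by
          refine setIntegral_mono_on ?_ ?_ measurableSet_Ioc fun t ht => ?_
          · exact ((ZZ_int X b).1).const_mul _
          · exact (int2 k (by positivity)).mono_set fun t ht => lt_trans hX0 ht.1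
          · exact mul_le_mul_of_nonneg_right (om_low hkn hX0 ht.1.le (ht.2.trans hb3)) (sq_nonneg _)
      _ ≤ ∫ t in Set.Ioi (0 : ℝ), om k (k / X) t * ‖riemannZeta (cl t)‖ ^ 2 := by
          refine setIntegral_mono_set (int2 k (by positivity)) ?_ ?_
          · refine (ae_restrict_iff' measurableSet_Ioi).mpr (Eventually.of_forall fun t ht => ?_)
            exact mul_nonneg (om_nonneg k (by positivity) (le_of_lt ht)) (sq_nonneg _)
          · exact LE.le.eventuallyLE (show Set.Ioc X b ⊆ Set.Ioi 0 from fun t ht => lt_trans hX0 ht.1)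
  have h3 : Ims k (k / X) ≤ (1 + C) * Real.log X := by
    have := (abs_le.1 h1).2
    nlinarith
  have h4 := h2.trans h3
  have h5 : ∫ t in X..b, ZZ t ≤ (Real.exp 2 * X / Real.sqrt k) * ((1 + C) * Real.log X) := by
    calc ∫ t in X..b, ZZ t = (Real.exp 2 * X / Real.sqrt k) *
          (Real.sqrt k / (Real.exp 2 * X) * ∫ t in X..b, ZZ t) := by
          field_simp
      _ ≤ _ := by gcongr
  refine h5.trans ?_
  calc (Real.exp 2 * X / Real.sqrt k) * ((1 + C) * Real.log X)
      = Real.exp 2 * (1 + C) * X * (Real.log X / Real.sqrt k) := by ring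
    _ ≤ Real.exp 2 * (1 + C) * X * 1 := by
        gcongr
        rw [div_le_one hsk]
        exact hs1
    _ = _ := mul_one _

/-- Intervals of arbitrary length. -/
theorem medium : ∃ C : ℝ, 0 < C ∧ ∀ᶠ T : ℝ in atTop, ∀ a b : ℝ, T ≤ a → a ≤ b → b ≤ 8 * T →
    ∫ t in a..b, ZZ t ≤ C * ((b - a) * Real.log T + T) := by
  obtain ⟨C, hC, h⟩ := short
  obtain ⟨X0, hX0⟩ := eventually_atTop.1 h
  refine ⟨32 * C, by positivity, ?_⟩
  filter_upwards [eventually_ge_atTop X0, eventually_ge_atTop (Real.exp 1), eventually_ge_atTop 8]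
    with T hT0 hTe hT8 a b ha hab hb
  have hT : 0 < T := by linarith
  have hL1 : 1 ≤ Real.log T := by
    rw [Real.le_log_iff_exp_le hT]
    exact hTe
  have hL8 : Real.log (8 * T) ≤ 2 * Real.log T := by
    rw [Real.log_mul (by norm_num) hT.ne']
    have := Real.log_le_log (by norm_num) hT8
    linarith
  have hL80 : 0 < Real.log (8 * T) := Real.log_pos (by linarith)
  set δ := T / (2 * Real.log (8 * T)) with hδ
  have hδ0 : 0 < δ := by positivity
  have step : ∀ x y : ℝ, T ≤ x → x ≤ y → x ≤ 8 * T → y - x ≤ δ → ∫ t in x..y, ZZ t ≤ 8 * C * T := by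
    intro x y hx hxy hx8 hyx
    have hx0 : 0 < x := by linarith
    have hlx : 0 < Real.log x := Real.log_pos (by linarith)
    have h1 : Real.log x ≤ Real.log (8 * T) := Real.log_le_log hx0 hx8
    have h2 : δ ≤ x / (2 * Real.log x) := by
      rw [hδ]
      gcongr
    refine (hX0 x (by linarith) y hxy (by linarith)).trans ?_
    nlinarith
  have ind : ∀ m : ℕ, ∀ x y : ℝ, T ≤ x → x ≤ y → y ≤ 8 * T → y - x ≤ m * δ →
      ∫ t in x..y, ZZ t ≤ m * (8 * C * T) := by
    intro m
    induction m with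
    | zero =>
      intro x y _ h2 _ h4
      have : x = y := by
        rw [Nat.cast_zero, zero_mul] at h4
        linarith
      rw [this, intervalIntegral.integral_same]
      simp
    | succ m ih =>
      intro x y h1 h2 h3 h4
      have hz1 : x ≤ min y (x + δ) := le_min h2 (by linarith)
      have hz2 : min y (x + δ) ≤ y := min_le_left _ _
      have hz3 : y - min y (x + δ) ≤ m * δ := by
        rcases le_total y (x + δ) with h5 | h5
        · rw [min_eq_left h5, sub_self]
          positivity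
        · rw [min_eq_right h5]
          push_cast at h4
          linarith
      have i1 := step x (min y (x + δ)) h1 hz1 (by linarith) (by
        have := min_le_right y (x + δ)
        linarith)
      have i2 := ih (min y (x + δ)) y (by linarith) hz2 h3 hz3
      rw [← intervalIntegral.integral_add_adjacent_intervals (ZZ_int x (min y (x + δ)))
        (ZZ_int (min y (x + δ)) y)]
      push_cast
      linarith
  have h1 := ind ⌈(b - a) / δ⌉₊ a b ha hab hb (by
    have := Nat.le_ceil ((b - a) / δ)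
    rwa [div_le_iff₀ hδ0] at this)
  have h2 : (⌈(b - a) / δ⌉₊ : ℝ) ≤ (b - a) / δ + 1 :=
    (Nat.ceil_lt_add_one (div_nonneg (by linarith) hδ0.le)).le
  refine h1.trans ?_
  calc (⌈(b - a) / δ⌉₊ : ℝ) * (8 * C * T) ≤ ((b - a) / δ + 1) * (8 * C * T) := by gcongr
    _ = 8 * C * ((b - a) * (2 * Real.log (8 * T)) + T) := by
        rw [hδ]
        field_simp
    _ ≤ 8 * C * ((b - a) * (2 * (2 * Real.log T)) + T) := by
        have : 0 ≤ b - a := by linarith
        gcongr
    _ ≤ 32 * C * ((b - a) * Real.log T + T) := by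
        have : 0 ≤ b - a := by linarith
        nlinarith [mul_nonneg this (by linarith : (0:ℝ) ≤ Real.log T), mul_pos hC hT]

end Pool.Agent.Q280.EW
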