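import Mathlib
import Pool.Agent.Q280.EW.Hlw2

/-!
# Project EW of helper80: job HLW, part 3 (the pointwise bound)
-/

set_option autoImplicit false
set_option linter.unusedSectionVars false

namespace Pool.Agent.Q280.EW

open Finset Filter Topology MeasureTheory Pool.Agent.H262R4.TM Pool.Agent.H262R4.TM.TTW
open Pool.Agent.H306R2.SM (om cl ef Yf ee)

/-- The mean square. -/
noncomputable def AA (x : ℝ) : ℝ := ∫ t in (0 : ℝ)..x, ZZ t

theorem AA_sub (a b : ℝ) : AA b - AA a = ∫ t in a..b, ZZ t :=
  intervalIntegral.integral_interval_sub_left (ZZ_int 0 b) (ZZ_int 0 a)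

theorem AA_mono {a b : ℝ} (h : a ≤ b) : AA a ≤ AA b := by
  have h1 := AA_sub a b
  have h2 : 0 ≤ ∫ t in a..b, ZZ t :=
    intervalIntegral.integral_nonneg h fun t _ => ZZ_nonneg t
  linarith

theorem AA_nonneg {x : ℝ} (hx : 0 ≤ x) : 0 ≤ AA x :=
  intervalIntegral.integral_nonneg hx fun t _ => ZZ_nonneg t

/-- The upper bound for the mean square. -/
theorem AA_upper : ∃ C T0 : ℝ, 0 < C ∧ 3 ≤ T0 ∧ ∀ x : ℝ, AA x ≤ C + C * (if T0 ≤ x then
    x * Real.log (2 * x) else 0) := by
  obtain ⟨C, hC, h⟩ := medium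
  obtain ⟨X0, hX0⟩ := eventually_atTop.1 h
  set T0 := max X0 3 with hT0
  have h3 : (3 : ℝ) ≤ T0 := le_max_right _ _
  have hlog : ∀ x : ℝ, T0 ≤ x → 1 ≤ Real.log x := by
    intro x hx
    rw [Real.le_log_iff_exp_le (by linarith)]
    have := Real.exp_one_lt_d9
    linarith
  have ind : ∀ n : ℕ, AA (2 ^ n * T0) ≤ AA T0 + 2 * C * (2 ^ n * T0 * Real.log (2 ^ n * T0)) := by
    intro n
    induction n with
    | zero =>
      rw [pow_zero, one_mul]
      have := hlog T0 le_rfl
      have : 0 ≤ 2 * C * (T0 * Real.log T0) := by positivity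
      linarith
    | succ n ih =>
      have h2n : (1 : ℝ) ≤ 2 ^ n := one_le_pow₀ (by norm_num)
      have hT : T0 ≤ 2 ^ n * T0 := by nlinarith
      have hl := hlog _ hT
      have h4 := hX0 (2 ^ n * T0) ((le_max_left X0 3).trans hT) (2 ^ n * T0) (2 ^ (n + 1) * T0) le_rfl
        (by rw [pow_succ]; nlinarith) (by rw [pow_succ]; nlinarith)
      rw [← AA_sub] at h4
      have h5 : Real.log (2 ^ n * T0) ≤ Real.log (2 ^ (n + 1) * T0) := by
        apply Real.log_le_log (by positivity)
        rw [pow_succ]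
        nlinarith
      have h6 : 2 ^ (n + 1) * T0 - 2 ^ n * T0 = 2 ^ n * T0 := by rw [pow_succ]; ring
      rw [h6] at h4
      set P := 2 ^ n * T0 with hP
      have hP0 : 0 < P := by positivity
      have h7 : 2 ^ (n + 1) * T0 = 2 * P := by rw [hP, pow_succ]; ring
      rw [h7] at h4 h5 ⊢
      have h8 : P ≤ P * Real.log P := by nlinarith
      have h9 : P * Real.log P ≤ P * Real.log (2 * P) := by gcongr
      nlinarith [mul_pos hC hP0]
  refine ⟨AA T0 + 4 * C, T0, by
    have := AA_nonneg (x := T0) (by linarith)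
    linarith, h3, fun x => ?_⟩
  have hA := AA_nonneg (x := T0) (by linarith)
  split_ifs with hx
  · have hx0 : 0 < x := by linarith
    obtain ⟨n, hn1, hn2⟩ := exists_nat_pow_near (x := x / T0) (y := 2) (by
      rw [le_div_iff₀ (by linarith)]; linarith) (by norm_num)
    rw [le_div_iff₀ (by linarith)] at hn1
    rw [div_lt_iff₀ (by linarith)] at hn2
    refine (AA_mono hn2.le).trans ((ind (n + 1)).trans ?_)
    have h7 : 2 ^ (n + 1) * T0 ≤ 2 * x := by rw [pow_succ]; linarith
    have h8 : Real.log (2 ^ (n + 1) * T0) ≤ Real.log (2 * x) := Real.log_le_log (by positivity) h7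
    have h9 : 0 ≤ Real.log (2 * x) := Real.log_nonneg (by linarith)
    have h10 : 2 ^ (n + 1) * T0 * Real.log (2 ^ (n + 1) * T0) ≤ 2 * x * Real.log (2 * x) := by
      refine mul_le_mul h7 h8 (Real.log_nonneg ?_) (by positivity)
      linarith
    have h11 : 0 ≤ x * Real.log (2 * x) := by positivity
    nlinarith
  · rw [mul_zero, add_zero]
    refine (AA_mono (not_le.1 hx).le).trans ?_
    linarith

/-- The upper bound in the form used below. -/
theorem AA_upper' : ∃ C : ℝ, 0 < C ∧ ∀ X y : ℝ, 3 ≤ X → 0 < y →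
    AA (X * y) ≤ C * (X * ((1 + y) * (Real.log X + y))) := by
  obtain ⟨C, T0, hC, hT0, h⟩ := AA_upper
  refine ⟨3 * C, by positivity, fun X y hX hy => ?_⟩
  have hX0 : 0 < X := by linarith
  have hL : 1 ≤ Real.log X := by
    rw [Real.le_log_iff_exp_le hX0]
    have := Real.exp_one_lt_d9
    linarith
  have h1 : 1 ≤ X * ((1 + y) * (Real.log X + y)) := by
    have h2 : 1 ≤ (1 + y) * (Real.log X + y) := by nlinarith
    nlinarith
  refine (h (X * y)).trans ?_
  split_ifs with hx
  · have h2 : Real.log (2 * (X * y)) ≤ Real.log X + 2 * y := by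
      rw [show 2 * (X * y) = X * (2 * y) by ring, Real.log_mul hX0.ne' (by positivity)]
      have := Real.log_le_sub_one_of_pos (show 0 < 2 * y by positivity)
      linarith
    have h3 : X * y * Real.log (2 * (X * y)) ≤ X * y * (Real.log X + 2 * y) := by gcongr
    have h4 : X * y * (Real.log X + 2 * y) ≤ 2 * (X * ((1 + y) * (Real.log X + y))) := by
      have h5 : y * (Real.log X + 2 * y) ≤ 2 * ((1 + y) * (Real.log X + y)) := by nlinarith
      nlinarith
    nlinarith
  · nlinarith

/-- The pointwise bound. -/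
theorem pw : ∃ C : ℝ, 0 < C ∧ ∀ᶠ X : ℝ in atTop, ∀ y : ℝ, 0 < y →
    |AA (X * y) - AA X| ≤ C * (X * (|y - 1| * Real.log X + 1 +
      (y - 1) ^ 2 * ((1 + y) * (Real.log X + y)))) := by
  obtain ⟨C1, hC1, h1⟩ := medium
  obtain ⟨C2, hC2, h2⟩ := AA_upper'
  obtain ⟨X0, hX0⟩ := eventually_atTop.1 h1
  refine ⟨C1 + 20 * C2, by positivity, ?_⟩
  filter_upwards [eventually_ge_atTop (2 * X0), eventually_ge_atTop 6] with X hX1 hX6 y hy
  have hX : 0 < X := by linarith
  have hL : 1 ≤ Real.log X := by
    rw [Real.le_log_iff_exp_le hX]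
    have := Real.exp_one_lt_d9
    linarith
  have hL0 : 0 ≤ Real.log X := by linarith
  have hp1 : 0 ≤ (y - 1) ^ 2 * ((1 + y) * (Real.log X + y)) := by positivity
  have hp2 : 0 ≤ |y - 1| * Real.log X + 1 := by positivity
  by_cases hy1 : 1 / 2 ≤ y ∧ y ≤ 2
  · obtain ⟨hy1, hy2⟩ := hy1
    have key : ∀ a b : ℝ, X / 2 ≤ a → a ≤ b → b ≤ 2 * X → AA b - AA a ≤
        C1 * ((b - a) * Real.log X + X) := by
      intro a b ha hab hb
      rw [AA_sub]
      refine (hX0 (X / 2) (by linarith) a b ha hab (by linarith)).trans ?_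
      have h3 : Real.log (X / 2) ≤ Real.log X := Real.log_le_log (by linarith) (by linarith)
      have h4 : 0 ≤ b - a := by linarith
      have h5 : (b - a) * Real.log (X / 2) ≤ (b - a) * Real.log X := by gcongr
      have h6 : (b - a) * Real.log (X / 2) + X / 2 ≤ (b - a) * Real.log X + X := by linarith
      exact mul_le_mul_of_nonneg_left h6 hC1.le
    have h3 : |AA (X * y) - AA X| ≤ C1 * (X * (|y - 1| * Real.log X + 1)) := by
      rcases le_total 1 y with h4 | h4
      · have h5 : X ≤ X * y := by nlinarith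
        rw [abs_of_nonneg (by linarith [AA_mono h5]), abs_of_nonneg (by linarith)]
        refine (key X (X * y) (by linarith) h5 (by nlinarith)).trans (le_of_eq ?_)
        ring
      · have h5 : X * y ≤ X := by nlinarith
        rw [abs_of_nonpos (by linarith [AA_mono h5]), abs_of_nonpos (by linarith)]
        have h6 := key (X * y) X (by nlinarith) h5 (by linarith)
        calc -(AA (X * y) - AA X) = AA X - AA (X * y) := by ring
          _ ≤ _ := h6
          _ = _ := by ring
    refine h3.trans ?_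
    have h4 : X * (|y - 1| * Real.log X + 1) ≤ X * (|y - 1| * Real.log X + 1 +
      (y - 1) ^ 2 * ((1 + y) * (Real.log X + y))) := by
      apply mul_le_mul_of_nonneg_left _ hX.le
      linarith
    calc _ ≤ C1 * (X * (|y - 1| * Real.log X + 1 +
          (y - 1) ^ 2 * ((1 + y) * (Real.log X + y)))) := by gcongr
      _ ≤ _ := by
        apply mul_le_mul_of_nonneg_right _ (by positivity)
        linarith
  · have h3 : 1 / 4 ≤ (y - 1) ^ 2 := by
      by_cases h4 : y ≤ 1 / 2
      · nlinarith
      · have h5 : 2 < y := by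
          by_contra h6
          exact hy1 ⟨by linarith, by linarith⟩
        nlinarith
    have h4 := h2 X y (by linarith) hy
    have h5 := h2 X 1 (by linarith) one_pos
    rw [mul_one] at h5
    have hA1 := AA_nonneg hX.le
    have hA2 := AA_nonneg (mul_pos hX hy).le
    have h6 : |AA (X * y) - AA X| ≤ AA (X * y) + AA X := by
      rw [abs_le]
      constructor <;> linarith
    refine h6.trans ?_
    set W := (1 + y) * (Real.log X + y) with hW
    have hW0 : Real.log X ≤ W := by
      rw [hW]
      nlinarith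
    have h7 : AA X ≤ 4 * C2 * (X * W) := by
      have h8 : (1 + 1) * (Real.log X + 1) ≤ 4 * W := by nlinarith
      have h9 : C2 * (X * ((1 + 1) * (Real.log X + 1))) ≤ C2 * (X * (4 * W)) :=
        mul_le_mul_of_nonneg_left (mul_le_mul_of_nonneg_left h8 hX.le) hC2.le
      linarith
    have h8 : AA (X * y) + AA X ≤ 5 * C2 * (X * W) := by linarith
    have h9 : 5 * C2 * (X * W) ≤ 20 * C2 * (X * ((y - 1) ^ 2 * W)) := by
      have h10 : W ≤ 4 * ((y - 1) ^ 2 * W) := by nlinarith
      have h11 : X * W ≤ X * (4 * ((y - 1) ^ 2 * W)) := by gcongr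
      nlinarith
    refine h8.trans (h9.trans ?_)
    calc 20 * C2 * (X * ((y - 1) ^ 2 * W)) ≤ 20 * C2 * (X * (|y - 1| * Real.log X + 1 +
          (y - 1) ^ 2 * W)) := by
          gcongr
          linarith
      _ ≤ _ := by
        apply mul_le_mul_of_nonneg_right _ (by positivity)
        linarith

end Pool.Agent.Q280.EW
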