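import Mathlib
import Pool.Agent.Q280.EW.Hlw3

/-!
# Project EW of helper80: job HLW, part 4 (moments of the gamma weight, Fubini)
-/

set_option autoImplicit false
set_option linter.unusedSectionVars false

namespace Pool.Agent.Q280.EW

open Finset Filter Topology MeasureTheory Pool.Agent.H262R4.TM Pool.Agent.H262R4.TM.TTW
open Pool.Agent.H306R2.SM (om cl ef Yf ee)

theorem pow_exp (N : ℕ) {δ : ℝ} (hδ : 0 < δ) :
    ∫ y in Set.Ioi (0 : ℝ), y ^ N * Real.exp (-(δ * y)) = (N.factorial : ℝ) / δ ^ (N + 1) := by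
  have h := Real.integral_rpow_mul_exp_neg_mul_Ioi (a := N + 1) (r := δ) (by positivity) hδ
  simp only [add_sub_cancel_right, Real.rpow_natCast] at h
  rw [h, Real.Gamma_nat_eq_factorial]
  have : ((N : ℝ) + 1) = ((N + 1 : ℕ) : ℝ) := by push_cast; ring
  rw [this, Real.rpow_natCast, one_div, inv_pow]
  field_simp

theorem om_mom (m n : ℕ) {δ : ℝ} (hδ : 0 < δ) :
    ∫ y in Set.Ioi (0 : ℝ), om m δ y * y ^ n =
      ((m + n).factorial : ℝ) / ((m.factorial : ℝ) * δ ^ n) := by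
  have h1 : ∀ y : ℝ, om m δ y * y ^ n =
      (δ ^ (m + 1) / (m.factorial : ℝ)) * (y ^ (m + n) * Real.exp (-(δ * y))) := by
    intro y
    unfold om
    rw [pow_add]
    ring
  simp_rw [h1]
  rw [integral_const_mul, pow_exp _ hδ]
  have hf : (0 : ℝ) < m.factorial := by exact_mod_cast Nat.factorial_pos m
  rw [show m + n + 1 = (m + 1) + n by ring, pow_add δ (m + 1) n]
  field_simp

theorem om_mom_int (m n : ℕ) {δ : ℝ} (hδ : 0 < δ) :
    IntegrableOn (fun y => om m δ y * y ^ n) (Set.Ioi 0) := by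
  refine Integrable.mono' (om_poly m n hδ) ?_ ?_
  · exact ((om_cont m δ).mul (continuous_pow n)).aestronglyMeasurable
  · refine (ae_restrict_iff' measurableSet_Ioi).mpr (Eventually.of_forall fun t ht => ?_)
    have ht0 : (0:ℝ) < t := ht
    have h1 := om_nonneg m hδ ht0.le
    rw [Real.norm_of_nonneg (by positivity)]
    gcongr
    linarith

/-- The polynomial bound. -/
noncomputable def QQ (L s y : ℝ) : ℝ :=
  (L / (2 * s) + 1 + L * s / 2 + L) + (-(L * s) - 2 * L + (L + 1)) * y +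
    (L * s / 2 + L - 2 * (L + 1) + 1) * y ^ 2 + ((L + 1) - 2) * y ^ 3 + y ^ 4

theorem QQ_eq (L s y : ℝ) : QQ L s y = L / (2 * s) + 1 + (L * s / 2) * (y - 1) ^ 2 +
    (y - 1) ^ 2 * ((1 + y) * (L + y)) := by
  unfold QQ
  ring

theorem QQ_bound {L s y : ℝ} (hL : 0 ≤ L) (hs : 0 < s) :
    |y - 1| * L + 1 + (y - 1) ^ 2 * ((1 + y) * (L + y)) ≤ QQ L s y := by
  rw [QQ_eq]
  have h1 : |y - 1| ≤ 1 / (2 * s) + s / 2 * (y - 1) ^ 2 := by
    have h2 : 0 ≤ (s * |y - 1| - 1) ^ 2 := sq_nonneg _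
    have h3 : |y - 1| ^ 2 = (y - 1) ^ 2 := sq_abs _
    have h4 : 1 / (2 * s) + s / 2 * (y - 1) ^ 2 - |y - 1| = (s * |y - 1| - 1) ^ 2 / (2 * s) := by
      rw [← h3]
      field_simp
      ring
    have h5 : 0 ≤ (s * |y - 1| - 1) ^ 2 / (2 * s) := by positivity
    linarith
  have h2 : |y - 1| * L ≤ (1 / (2 * s) + s / 2 * (y - 1) ^ 2) * L := by gcongr
  have h3 : (1 / (2 * s) + s / 2 * (y - 1) ^ 2) * L = L / (2 * s) + (L * s / 2) * (y - 1) ^ 2 := by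
    ring
  linarith

theorem sum5 {f0 f1 f2 f3 f4 : ℝ → ℝ} (h0 : IntegrableOn f0 (Set.Ioi 0))
    (h1 : IntegrableOn f1 (Set.Ioi 0)) (h2 : IntegrableOn f2 (Set.Ioi 0))
    (h3 : IntegrableOn f3 (Set.Ioi 0)) (h4 : IntegrableOn f4 (Set.Ioi 0)) :
    IntegrableOn (fun y => f0 y + f1 y + f2 y + f3 y + f4 y) (Set.Ioi 0) ∧
    ∫ y in Set.Ioi (0 : ℝ), (f0 y + f1 y + f2 y + f3 y + f4 y) =
      (∫ y in Set.Ioi (0 : ℝ), f0 y) + (∫ y in Set.Ioi (0 : ℝ), f1 y) +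
      (∫ y in Set.Ioi (0 : ℝ), f2 y) + (∫ y in Set.Ioi (0 : ℝ), f3 y) +
      (∫ y in Set.Ioi (0 : ℝ), f4 y) := by
  have g1 : IntegrableOn (fun y => f0 y + f1 y) (Set.Ioi 0) := Integrable.add h0 h1
  have g2 : IntegrableOn (fun y => f0 y + f1 y + f2 y) (Set.Ioi 0) := Integrable.add g1 h2
  have g3 : IntegrableOn (fun y => f0 y + f1 y + f2 y + f3 y) (Set.Ioi 0) := Integrable.add g2 h3
  refine ⟨Integrable.add g3 h4, ?_⟩
  rw [integral_add g3 h4, integral_add g2 h3, integral_add g1 h2, integral_add h0 h1]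

theorem QQ_int (m : ℕ) (L s : ℝ) {δ : ℝ} (hδ : 0 < δ) :
    IntegrableOn (fun y => om m δ y * QQ L s y) (Set.Ioi 0) ∧
    ∫ y in Set.Ioi (0 : ℝ), om m δ y * QQ L s y =
      (L / (2 * s) + 1 + L * s / 2 + L) * (((m + 0).factorial : ℝ) / ((m.factorial : ℝ) * δ ^ 0)) +
      (-(L * s) - 2 * L + (L + 1)) * (((m + 1).factorial : ℝ) / ((m.factorial : ℝ) * δ ^ 1)) +
      (L * s / 2 + L - 2 * (L + 1) + 1) * (((m + 2).factorial : ℝ) / ((m.factorial : ℝ) * δ ^ 2)) +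
      ((L + 1) - 2) * (((m + 3).factorial : ℝ) / ((m.factorial : ℝ) * δ ^ 3)) +
      1 * (((m + 4).factorial : ℝ) / ((m.factorial : ℝ) * δ ^ 4)) := by
  have h : ∀ y : ℝ, om m δ y * QQ L s y =
      (L / (2 * s) + 1 + L * s / 2 + L) * (om m δ y * y ^ 0) +
      (-(L * s) - 2 * L + (L + 1)) * (om m δ y * y ^ 1) +
      (L * s / 2 + L - 2 * (L + 1) + 1) * (om m δ y * y ^ 2) +
      ((L + 1) - 2) * (om m δ y * y ^ 3) + 1 * (om m δ y * y ^ 4) := by
    intro y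
    unfold QQ
    ring
  have i0 := (om_mom_int m 0 hδ).const_mul (L / (2 * s) + 1 + L * s / 2 + L)
  have i1 := (om_mom_int m 1 hδ).const_mul (-(L * s) - 2 * L + (L + 1))
  have i2 := (om_mom_int m 2 hδ).const_mul (L * s / 2 + L - 2 * (L + 1) + 1)
  have i3 := (om_mom_int m 3 hδ).const_mul ((L + 1) - 2)
  have i4 := (om_mom_int m 4 hδ).const_mul 1
  simp_rw [h]
  obtain ⟨a1, a2⟩ := sum5 i0 i1 i2 i3 i4
  refine ⟨a1, a2.trans ?_⟩
  rw [integral_const_mul, integral_const_mul,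
      integral_const_mul, integral_const_mul, integral_const_mul, om_mom m 0 hδ, om_mom m 1 hδ,
      om_mom m 2 hδ, om_mom m 3 hδ, om_mom m 4 hδ]

theorem alg_id {L s k F : ℝ} (hk : 0 < k) (hF : 0 < F) :
    (L / (2 * s) + 1 + L * s / 2 + L) * (F / (F * k ^ 0)) +
      (-(L * s) - 2 * L + (L + 1)) * (k * F / (F * k ^ 1)) +
      (L * s / 2 + L - 2 * (L + 1) + 1) * ((k + 1) * (k * F) / (F * k ^ 2)) +
      ((L + 1) - 2) * ((k + 2) * ((k + 1) * (k * F)) / (F * k ^ 3)) +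
      1 * ((k + 3) * ((k + 2) * ((k + 1) * (k * F))) / (F * k ^ 4)) =
      L / (2 * s) + 1 + (L * s / 2 + L) * (1 / k) + (L + 1) * ((k + 2) / k ^ 2) +
        (k + 1) * (k + 6) / k ^ 3 := by
  have e0 : F / (F * k ^ 0) = 1 := by rw [pow_zero, mul_one, div_self hF.ne']
  have e1 : k * F / (F * k ^ 1) = 1 := by field_simp
  have e2 : (k + 1) * (k * F) / (F * k ^ 2) = 1 + 1 / k := by field_simp
  have e3 : (k + 2) * ((k + 1) * (k * F)) / (F * k ^ 3) = 1 + 3 * (1 / k) + 2 * (1 / k) ^ 2 := by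
    field_simp
    ring
  have e4 : (k + 3) * ((k + 2) * ((k + 1) * (k * F))) / (F * k ^ 4) =
      1 + 6 * (1 / k) + 11 * (1 / k) ^ 2 + 6 * (1 / k) ^ 3 := by
    field_simp
    ring
  have e5 : (k + 2) / k ^ 2 = 1 / k + 2 * (1 / k) ^ 2 := by field_simp
  have e6 : (k + 1) * (k + 6) / k ^ 3 = 1 / k + 7 * (1 / k) ^ 2 + 6 * (1 / k) ^ 3 := by
    field_simp
    ring
  rw [e0, e1, e2, e3, e4, e5, e6]
  ring

theorem alg_bd {L s k : ℝ} (hL : 1 ≤ L) (hss : s ^ 2 = k) (hLs : L ≤ s) :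
    L / (2 * s) + 1 + (L * s / 2 + L) * (1 / k) + (L + 1) * ((k + 2) / k ^ 2) +
        (k + 1) * (k + 6) / k ^ 3 ≤ 24 := by
  have hs0 : 0 < s := by linarith
  have hk1 : 1 ≤ k := by rw [← hss]; nlinarith
  have hk0 : 0 < k := by linarith
  have hLk : L ≤ k := by rw [← hss]; nlinarith
  have hkk : k ≤ k ^ 2 := by nlinarith
  have a1 : L / (2 * s) ≤ 1 := by rw [div_le_one (by positivity)]; linarith
  have a2 : (L * s / 2 + L) * (1 / k) ≤ 2 := by
    rw [mul_one_div, div_le_iff₀ hk0, ← hss]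
    have h1 : L * s ≤ s * s := mul_le_mul_of_nonneg_right hLs hs0.le
    have h2 : L ≤ s ^ 2 := by rw [hss]; exact hLk
    nlinarith
  have a3 : (L + 1) * ((k + 2) / k ^ 2) ≤ 6 := by
    rw [← mul_div_assoc, div_le_iff₀ (by positivity)]
    have : (L + 1) * (k + 2) ≤ (k + 1) * (k + 2) := mul_le_mul_of_nonneg_right (by linarith) (by linarith)
    nlinarith
  have a4 : (k + 1) * (k + 6) / k ^ 3 ≤ 14 := by
    rw [div_le_iff₀ (by positivity)]
    have h3 : k ^ 2 ≤ k ^ 3 := pow_le_pow_right₀ hk1 (by norm_num)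
    nlinarith
  linarith

theorem QQ_mean (m : ℕ) {L s : ℝ} (hL : 1 ≤ L) (hs : s = Real.sqrt ((m + 1 : ℕ) : ℝ)) (hLs : L ≤ s) :
    ∫ y in Set.Ioi (0 : ℝ), om m ((m + 1 : ℕ) : ℝ) y * QQ L s y ≤ 24 := by
  obtain ⟨k, hk⟩ : ∃ k : ℝ, k = ((m + 1 : ℕ) : ℝ) := ⟨_, rfl⟩
  have hk0 : 0 < k := by rw [hk]; positivity
  rw [← hk] at hs ⊢
  have hss : s ^ 2 = k := by rw [hs]; exact Real.sq_sqrt hk0.le
  rw [(QQ_int m L s hk0).2]
  have hf : (0 : ℝ) < m.factorial := by exact_mod_cast Nat.factorial_pos m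
  have hm : (m : ℝ) = k - 1 := by rw [hk]; push_cast; ring
  have f1 : ((m + 1).factorial : ℝ) = k * (m.factorial : ℝ) := by
    rw [Nat.factorial_succ]; push_cast; rw [hm]; ring
  have f2 : ((m + 2).factorial : ℝ) = (k + 1) * (k * (m.factorial : ℝ)) := by
    rw [Nat.factorial_succ, ← f1]; push_cast; rw [hm]; ring
  have f3 : ((m + 3).factorial : ℝ) = (k + 2) * ((k + 1) * (k * (m.factorial : ℝ))) := by
    rw [Nat.factorial_succ, ← f2]; push_cast; rw [hm]; ring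
  have f4 : ((m + 4).factorial : ℝ) = (k + 3) * ((k + 2) * ((k + 1) * (k * (m.factorial : ℝ)))) := by
    rw [Nat.factorial_succ, ← f3]; push_cast; rw [hm]; ring
  rw [f1, f2, f3, f4, Nat.add_zero, alg_id hk0 hf]
  exact alg_bd hL hss hLs

end Pool.Agent.Q280.EW
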