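import Mathlib
import Pool.Agent.Q280.EW.Hlw4
import Pool.Agent.Q80.EW.Stm

/-!
# Project EW of helper80: job HLW (the mean square of zeta)
-/

set_option autoImplicit false
set_option linter.unusedSectionVars false

namespace Pool.Agent.Q280.EW

open Finset Filter Topology MeasureTheory Pool.Agent.H262R4.TM Pool.Agent.H262R4.TM.TTW
open Pool.Agent.H306R2.SM (om cl ef Yf ee)

theorem om_scale (k : ℕ) {X : ℝ} (hX : 0 < X) (y : ℝ) :
    om k (k / X) (X * y) = X⁻¹ * om k k y := by
  unfold om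
  have h : (k : ℝ) / X * (X * y) = k * y := by field_simp
  rw [h, mul_pow, div_pow, pow_succ X k]
  field_simp

theorem om_div (m : ℕ) {y : ℝ} (hy : 0 < y) :
    om (m + 1) ((m + 1 : ℕ) : ℝ) y * y⁻¹ = om m ((m + 1 : ℕ) : ℝ) y := by
  unfold om
  have hf : (0 : ℝ) < m.factorial := by exact_mod_cast Nat.factorial_pos m
  have hk : (0 : ℝ) < ((m + 1 : ℕ) : ℝ) := by positivity
  rw [Nat.factorial_succ, Nat.cast_mul, pow_succ _ (m + 1), pow_succ y m]
  field_simp

theorem Ims_eq (k : ℕ) {X : ℝ} (hX : 0 < X) :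
    Ims k (k / X) = ∫ y in Set.Ioi (0:ℝ), om k k y * ZZ (X * y) := by
  have h := integral_comp_mul_left_Ioi (fun t => om k (k / X) t * ZZ t) 0 hX
  rw [mul_zero] at h
  have h1 : ∀ y : ℝ, om k (k / X) (X * y) * ZZ (X * y) = X⁻¹ * (om k k y * ZZ (X * y)) := by
    intro y
    rw [om_scale k hX]
    ring
  simp_rw [h1] at h
  rw [integral_const_mul, smul_eq_mul] at h
  have h2 : X⁻¹ ≠ 0 := by positivity
  exact (mul_left_cancel₀ h2 h).symm

theorem prod_int (k : ℕ) (hk : 1 ≤ k) {T1 T2 : ℝ} (h1 : 0 < T1) (h2 : T1 ≤ T2) :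
    Integrable (Function.uncurry fun X y : ℝ => om k k y * ZZ (X * y))
      ((volume.restrict (Set.Ioc T1 T2)).prod (volume.restrict (Set.Ioi 0))) := by
  have hk0 : (0 : ℝ) < k := by exact_mod_cast hk
  have hb := ((om_poly k 4 hk0).const_mul (576 * (1 + T2) ^ 4))
  have hb2 : Integrable (fun p : ℝ × ℝ => 576 * (1 + T2) ^ 4 * (om k k p.2 * (1 + p.2) ^ 4))
      ((volume.restrict (Set.Ioc T1 T2)).prod (volume.restrict (Set.Ioi 0))) :=
    Integrable.comp_snd hb _
  refine Integrable.mono' hb2 ?_ ?_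
  · refine Continuous.aestronglyMeasurable ?_
    have c1 : Continuous fun p : ℝ × ℝ => om k k p.2 := (om_cont k k).comp continuous_snd
    have c2 : Continuous fun p : ℝ × ℝ => ZZ (p.1 * p.2) :=
      ZZ_cont.comp (continuous_fst.mul continuous_snd)
    exact c1.mul c2
  · rw [Measure.prod_restrict]
    refine (ae_restrict_iff' (measurableSet_Ioc.prod measurableSet_Ioi)).mpr
      (Eventually.of_forall fun p hp => ?_)
    obtain ⟨⟨ha, hb⟩, hc⟩ := hp
    have hy : 0 < p.2 := hc
    have hX : 0 < p.1 := lt_trans h1 ha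
    have h3 := om_nonneg k hk0 hy.le
    have h4 : ZZ (p.1 * p.2) ≤ 576 * (1 + p.1 * p.2) ^ 4 := z2_bound (by positivity)
    have h5 : 1 + p.1 * p.2 ≤ (1 + T2) * (1 + p.2) := by nlinarith
    change ‖om k k p.2 * ZZ (p.1 * p.2)‖ ≤ _
    rw [Real.norm_of_nonneg (mul_nonneg h3 (ZZ_nonneg _))]
    calc om k k p.2 * ZZ (p.1 * p.2) ≤ om k k p.2 * (576 * (1 + p.1 * p.2) ^ 4) := by gcongr
      _ ≤ om k k p.2 * (576 * ((1 + T2) * (1 + p.2)) ^ 4) := by gcongr
      _ = _ := by rw [mul_pow]; ring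

theorem fub (m : ℕ) {T1 T2 : ℝ} (h1 : 0 < T1) (h2 : T1 ≤ T2) :
    IntervalIntegrable (fun X => Ims (m + 1) (((m + 1 : ℕ) : ℝ) / X)) volume T1 T2 ∧
    ∫ X in T1..T2, Ims (m + 1) (((m + 1 : ℕ) : ℝ) / X) =
      ∫ y in Set.Ioi (0:ℝ), om m ((m + 1 : ℕ) : ℝ) y * (AA (T2 * y) - AA (T1 * y)) := by
  have hi := prod_int (m + 1) (by omega) h1 h2
  have e1 : ∀ X ∈ Set.Ioc T1 T2, Ims (m + 1) (((m + 1 : ℕ) : ℝ) / X) =
      ∫ y in Set.Ioi (0:ℝ), om (m + 1) ((m + 1 : ℕ) : ℝ) y * ZZ (X * y) := fun X hX =>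
    Ims_eq (m + 1) (lt_trans h1 hX.1)
  constructor
  · rw [intervalIntegrable_iff_integrableOn_Ioc_of_le h2]
    refine IntegrableOn.congr_fun (f := fun X => ∫ y in Set.Ioi (0:ℝ),
      om (m + 1) ((m + 1 : ℕ) : ℝ) y * ZZ (X * y)) ?_ (fun X hX => (e1 X hX).symm) measurableSet_Ioc
    exact hi.integral_prod_left
  · rw [intervalIntegral.integral_of_le h2, setIntegral_congr_fun measurableSet_Ioc e1,
      integral_integral_swap hi]
    refine setIntegral_congr_fun measurableSet_Ioi fun y hy => ?_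
    have hy0 : (0 : ℝ) < y := hy
    have e2 : ∫ X in Set.Ioc T1 T2, om (m + 1) ((m + 1 : ℕ) : ℝ) y * ZZ (X * y) =
        om (m + 1) ((m + 1 : ℕ) : ℝ) y * (y⁻¹ * (AA (T2 * y) - AA (T1 * y))) := by
      rw [integral_const_mul, ← intervalIntegral.integral_of_le h2,
        intervalIntegral.integral_comp_mul_right ZZ hy0.ne', smul_eq_mul, AA_sub]
    change ∫ X in Set.Ioc T1 T2, om (m + 1) ((m + 1 : ℕ) : ℝ) y * ZZ (X * y) = _
    rw [e2, ← mul_assoc, om_div m hy0]

theorem AA_cont : Continuous AA := intervalIntegral.continuous_primitive ZZ_int 0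

theorem AA_int (m : ℕ) {X : ℝ} (hX : 0 < X) {δ : ℝ} (hδ : 0 < δ) :
    IntegrableOn (fun y => om m δ y * AA (X * y)) (Set.Ioi 0) := by
  refine Integrable.mono' ((om_poly m 5 hδ).const_mul (576 * (1 + X) ^ 5)) ?_ ?_
  · exact ((om_cont m δ).mul (AA_cont.comp (continuous_const.mul continuous_id))).aestronglyMeasurable
  · refine (ae_restrict_iff' measurableSet_Ioi).mpr (Eventually.of_forall fun y hy => ?_)
    have hy0 : (0 : ℝ) < y := hy
    have h1 := om_nonneg m hδ hy0.le
    have hXy : 0 ≤ X * y := by positivity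
    rw [Real.norm_of_nonneg (mul_nonneg h1 (AA_nonneg hXy))]
    have h2 : AA (X * y) ≤ 576 * (1 + X * y) ^ 4 * (X * y) := by
      unfold AA
      have h3 : ∫ t in (0:ℝ)..(X * y), ZZ t ≤ ∫ t in (0:ℝ)..(X * y), 576 * (1 + X * y) ^ 4 := by
        refine intervalIntegral.integral_mono_on hXy (ZZ_int _ _) intervalIntegrable_const
          fun t ht => ?_
        refine (z2_bound ht.1).trans ?_
        have := ht.1
        have := ht.2
        gcongr
      refine h3.trans (le_of_eq ?_)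
      rw [intervalIntegral.integral_const, smul_eq_mul]
      ring
    have h5 : 1 + X * y ≤ (1 + X) * (1 + y) := by nlinarith
    calc om m δ y * AA (X * y) ≤ om m δ y * (576 * (1 + X * y) ^ 4 * (X * y)) := by gcongr
      _ ≤ om m δ y * (576 * (1 + X * y) ^ 4 * (1 + X * y)) := by gcongr; linarith
      _ = om m δ y * (576 * (1 + X * y) ^ 5) := by ring
      _ ≤ om m δ y * (576 * ((1 + X) * (1 + y)) ^ 5) := by gcongr
      _ = _ := by rw [mul_pow]; ring

/-- The mean square in long intervals. -/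
theorem main : ∃ C : ℝ, 0 < C ∧ ∀ᶠ T : ℝ in atTop, ∀ T1 T2 : ℝ, T ≤ T1 → T1 ≤ T2 → T2 ≤ 4 * T →
    |(AA T2 - AA T1) - (T2 - T1) * Real.log T| ≤ C * T := by
  obtain ⟨C1, hC1, h1⟩ := ims_asymp
  obtain ⟨C2, hC2, h2⟩ := pw
  obtain ⟨X1, hX1⟩ := eventually_atTop.1 h1
  obtain ⟨X2, hX2⟩ := eventually_atTop.1 h2
  refine ⟨4 * (C1 + 2) + 192 * C2, by positivity, ?_⟩
  filter_upwards [eventually_ge_atTop X1, eventually_ge_atTop X2, eventually_ge_atTop 256]
    with T hT1 hT2 hT3 T1 T2 ha hab hb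
  have hT : 0 < T := by linarith
  have hT10 : 0 < T1 := by linarith
  have hT20 : 0 < T2 := by linarith
  have hl4 : Real.log 4 ≤ 2 := by
    have := Real.log_two_lt_d9
    rw [show (4 : ℝ) = 2 ^ 2 by norm_num, Real.log_pow]
    push_cast
    linarith
  have hl4' : 0 ≤ Real.log 4 := Real.log_nonneg (by norm_num)
  have hlT : 4 * Real.log 4 ≤ Real.log T := by
    have h3 : 4 * Real.log 4 = Real.log 256 := by
      rw [show (256 : ℝ) = 4 ^ 4 by norm_num, Real.log_pow]
      push_cast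
      ring
    rw [h3]
    exact Real.log_le_log (by norm_num) hT3
  have hl1 : 1 ≤ Real.log 4 := by
    have := Real.log_two_gt_d9
    rw [show (4 : ℝ) = 2 ^ 2 by norm_num, Real.log_pow]
    push_cast
    linarith
  have hL4 : Real.log (4 * T) = Real.log 4 + Real.log T := Real.log_mul (by norm_num) hT.ne'
  set L := Real.log (4 * T) with hL
  have hL1 : 1 ≤ L := by linarith
  obtain ⟨m, hm⟩ : ∃ m, ⌈L ^ 2⌉₊ = m + 1 := by
    have : 1 ≤ ⌈L ^ 2⌉₊ := Nat.one_le_ceil_iff.2 (by positivity)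
    exact ⟨⌈L ^ 2⌉₊ - 1, by omega⟩
  have hk1 : L ^ 2 ≤ ((m + 1 : ℕ) : ℝ) := by rw [← hm]; exact Nat.le_ceil _
  have hk2 : ((m + 1 : ℕ) : ℝ) ≤ L ^ 2 + 1 := by
    rw [← hm]
    exact (Nat.ceil_lt_add_one (by positivity)).le
  have hk3 : ((m + 1 : ℕ) : ℝ) ≤ 4 * Real.log T ^ 2 := by
    have h3 : L ≤ 5 / 4 * Real.log T := by linarith
    nlinarith
  have hk0 : (0 : ℝ) < ((m + 1 : ℕ) : ℝ) := by positivity
  set s := Real.sqrt ((m + 1 : ℕ) : ℝ) with hs
  have hLs : L ≤ s := Real.le_sqrt_of_sq_le hk1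
  have hs0 : 0 < s := by linarith
  obtain ⟨f1, f2⟩ := fub m hT10 hab
  -- the average of the weighted mean squares
  have g1 : |(∫ X in T1..T2, Ims (m + 1) (((m + 1 : ℕ) : ℝ) / X)) - (T2 - T1) * Real.log T| ≤
      (C1 + 2) * (T2 - T1) := by
    have e1 : (∫ X in T1..T2, Ims (m + 1) (((m + 1 : ℕ) : ℝ) / X)) - (T2 - T1) * Real.log T =
        ∫ X in T1..T2, (Ims (m + 1) (((m + 1 : ℕ) : ℝ) / X) - Real.log T) := by
      rw [intervalIntegral.integral_sub f1 intervalIntegrable_const,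
        intervalIntegral.integral_const, smul_eq_mul]
    rw [e1, ← Real.norm_eq_abs]
    have e2 := intervalIntegral.norm_integral_le_of_norm_le_const (a := T1) (b := T2)
      (f := fun X => Ims (m + 1) (((m + 1 : ℕ) : ℝ) / X) - Real.log T) (C := C1 + 2) (by
        intro X hX
        rw [Set.uIoc_of_le hab] at hX
        have hXT : T ≤ X := by linarith [hX.1]
        have hX4 : X ≤ 4 * T := by linarith [hX.2]
        have hX0 : 0 < X := by linarith
        have l1 : Real.log T ≤ Real.log X := Real.log_le_log hT hXT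
        have l2 : Real.log X ≤ L := Real.log_le_log hX0 hX4
        have e3 := hX1 X (by linarith) (m + 1) (by
          refine le_trans ?_ hk1
          have : 0 ≤ Real.log X := by linarith
          gcongr) (by
          refine hk3.trans ?_
          have : 0 ≤ Real.log T := by linarith
          gcongr)
        rw [Real.norm_eq_abs]
        rw [abs_le] at e3 ⊢
        constructor <;> linarith)
    rwa [abs_of_nonneg (by linarith : (0:ℝ) ≤ T2 - T1)] at e2
  -- comparison
  have g2 : |(∫ X in T1..T2, Ims (m + 1) (((m + 1 : ℕ) : ℝ) / X)) - (AA T2 - AA T1)| ≤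
      192 * C2 * T := by
    have i1 := AA_int m hT10 hk0
    have i2 := AA_int m hT20 hk0
    have i0 : IntegrableOn (fun y => om m ((m + 1 : ℕ) : ℝ) y * (AA T2 - AA T1)) (Set.Ioi 0) := by
      have h := (om_mom_int m 0 hk0).mul_const (AA T2 - AA T1)
      refine h.congr (Eventually.of_forall fun y => ?_)
      simp only [pow_zero, mul_one]
    have e0 : ∫ y in Set.Ioi (0:ℝ), om m ((m + 1 : ℕ) : ℝ) y * (AA T2 - AA T1) = AA T2 - AA T1 := by
      rw [integral_mul_const]
      have := om_mom m 0 hk0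
      simp only [pow_zero, mul_one, add_zero] at this
      rw [this, div_self (by exact_mod_cast m.factorial_ne_zero), one_mul]
    have i3 : IntegrableOn (fun y => om m ((m + 1 : ℕ) : ℝ) y * (AA (T2 * y) - AA (T1 * y)))
        (Set.Ioi 0) := by
      have := i2.sub i1
      refine this.congr (Eventually.of_forall fun y => ?_)
      simp only [Pi.sub_apply]
      ring
    have e1 : (∫ X in T1..T2, Ims (m + 1) (((m + 1 : ℕ) : ℝ) / X)) - (AA T2 - AA T1) =
        ∫ y in Set.Ioi (0:ℝ), (om m ((m + 1 : ℕ) : ℝ) y * (AA (T2 * y) - AA (T1 * y)) -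
          om m ((m + 1 : ℕ) : ℝ) y * (AA T2 - AA T1)) := by
      rw [integral_sub i3 i0, e0, f2]
    rw [e1, ← Real.norm_eq_abs]
    have e2 := norm_integral_le_of_norm_le (μ := volume.restrict (Set.Ioi (0:ℝ)))
      (f := fun y => om m ((m + 1 : ℕ) : ℝ) y * (AA (T2 * y) - AA (T1 * y)) -
          om m ((m + 1 : ℕ) : ℝ) y * (AA T2 - AA T1))
      (g := fun y => 8 * C2 * T * (om m ((m + 1 : ℕ) : ℝ) y * QQ L s y))
      ((QQ_int m L s hk0).1.const_mul _) (by
        refine (ae_restrict_iff' measurableSet_Ioi).mpr (Eventually.of_forall fun y hy => ?_)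
        have hy0 : (0 : ℝ) < y := hy
        have o1 := om_nonneg m hk0 hy0.le
        have q := QQ_bound (L := L) (s := s) (y := y) (by linarith) hs0
        have key : ∀ X : ℝ, T ≤ X → X ≤ 4 * T → |AA (X * y) - AA X| ≤ 4 * C2 * T * QQ L s y := by
          intro X hXT hX4
          have hX0 : 0 < X := by linarith
          have l1 : Real.log T ≤ Real.log X := Real.log_le_log hT hXT
          have l2 : Real.log X ≤ L := Real.log_le_log hX0 hX4
          have l3 : 0 ≤ Real.log X := by linarith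
          refine (hX2 X (by linarith) y hy0).trans ?_
          have p1 : |y - 1| * Real.log X + 1 + (y - 1) ^ 2 * ((1 + y) * (Real.log X + y)) ≤
              QQ L s y := by
            refine le_trans ?_ q
            gcongr
          have p0 : 0 ≤ |y - 1| * Real.log X + 1 + (y - 1) ^ 2 * ((1 + y) * (Real.log X + y)) := by
            positivity
          calc C2 * (X * (|y - 1| * Real.log X + 1 + (y - 1) ^ 2 * ((1 + y) * (Real.log X + y))))
              ≤ C2 * ((4 * T) * QQ L s y) := by gcongr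
            _ = _ := by ring
        have k1 := key T1 ha (by linarith)
        have k2 := key T2 (by linarith) hb
        rw [Real.norm_eq_abs, ← mul_sub, abs_mul, abs_of_nonneg o1]
        have k3 : |AA (T2 * y) - AA (T1 * y) - (AA T2 - AA T1)| ≤ 8 * C2 * T * QQ L s y := by
          have : AA (T2 * y) - AA (T1 * y) - (AA T2 - AA T1) =
            (AA (T2 * y) - AA T2) - (AA (T1 * y) - AA T1) := by ring
          rw [this]
          refine (abs_sub _ _).trans ?_
          linarith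
        calc om m ((m + 1 : ℕ) : ℝ) y * |AA (T2 * y) - AA (T1 * y) - (AA T2 - AA T1)|
            ≤ om m ((m + 1 : ℕ) : ℝ) y * (8 * C2 * T * QQ L s y) := by gcongr
          _ = _ := by ring)
    refine e2.trans ?_
    rw [integral_const_mul]
    have := QQ_mean m hL1 hs hLs
    calc 8 * C2 * T * ∫ y in Set.Ioi (0:ℝ), om m ((m + 1 : ℕ) : ℝ) y * QQ L s y
        ≤ 8 * C2 * T * 24 := by gcongr
      _ = _ := by ring
  have g3 : (C1 + 2) * (T2 - T1) ≤ (C1 + 2) * (4 * T) := by
    gcongr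
    linarith
  rw [abs_le] at g1 g2 ⊢
  constructor <;> nlinarith

/-- JOB HLW. -/
theorem t_HLW : Pool.Agent.Q80.EW.J_HLW := by
  obtain ⟨C, hC, h⟩ := main
  obtain ⟨X0, hX0⟩ := eventually_atTop.1 h
  set T0 := max X0 2 with hT0
  have h2 : (2 : ℝ) ≤ T0 := le_max_right _ _
  refine ⟨C + AA (4 * T0) + Real.log T0, fun T h hT hh1 hh2 => ?_⟩
  have hT' : 0 < T := by linarith
  have hA := AA_nonneg (x := 4 * T0) (by linarith)
  have hlT0 : 0 ≤ Real.log T0 := Real.log_nonneg (by linarith)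
  have e1 : ∫ t in T..(2 * T), ‖Pool.Agent.Q80.EW.ze (t + h)‖ ^ 2 = AA (2 * T + h) - AA (T + h) := by
    have e2 : ∀ t : ℝ, ‖Pool.Agent.Q80.EW.ze (t + h)‖ ^ 2 = ZZ (t + h) := fun t => rfl
    simp_rw [e2]
    rw [intervalIntegral.integral_comp_add_right ZZ h, AA_sub]
  rw [e1]
  rcases le_total X0 T with h3 | h3
  · have h4 := hX0 T h3 (T + h) (2 * T + h) (by linarith) (by linarith) (by linarith)
    have h5 : 2 * T + h - (T + h) = T := by ring
    rw [h5] at h4
    refine h4.trans ?_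
    apply mul_le_mul_of_nonneg_right _ hT'.le
    linarith
  · have h4 : T ≤ T0 := h3.trans (le_max_left _ _)
    have h5 : AA (2 * T + h) ≤ AA (4 * T0) := AA_mono (by linarith)
    have h6 : 0 ≤ AA (T + h) := AA_nonneg (by linarith)
    have h7 : AA (T + h) ≤ AA (2 * T + h) := AA_mono (by linarith)
    have h8 : 0 ≤ Real.log T := Real.log_nonneg (by linarith)
    have h9 : Real.log T ≤ Real.log T0 := Real.log_le_log hT' h4
    have h10 : T * Real.log T ≤ T * Real.log T0 := by gcongr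
    have h11 : AA (4 * T0) ≤ AA (4 * T0) * T := by nlinarith
    have h12 : 0 ≤ C * T := by positivity
    have h13 : 0 ≤ T * Real.log T := by positivity
    have h14 : 0 ≤ AA (4 * T0) * T := by positivity
    have h15 : 0 ≤ Real.log T0 * T := by positivity
    rw [abs_le]
    constructor <;> nlinarith

end Pool.Agent.Q280.EW
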